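import Mathlib
import Pool.Agent.MP_8d3206_nt.Alg

section

namespace Pool.Agent.MP_8d3206_nt

def fm (φ s : ℝ) : ℝ × ℝ := (-(φ + 1) * s - (φ ^ 2 - 1), (1 - s) * (φ ^ 2 - 1))
def f0 (φ s : ℝ) : ℝ × ℝ := ((φ + 1) * s + φ ^ 2, φ ^ 2 * s + 1 + φ - φ ^ 2)
def f1 (φ s : ℝ) : ℝ × ℝ := (-φ * s - φ ^ 2, -(φ ^ 2 * s + φ))
def f2 (φ s : ℝ) : ℝ × ℝ := (1, s + φ)
def f3 (φ s : ℝ) : ℝ × ℝ := (s, -(φ ^ 2 - 1))

def sc (c : ℝ) (v : ℝ × ℝ) : ℝ × ℝ := (c * v.1, c * v.2)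

lemma stp_sc (φ c : ℝ) (v : ℝ × ℝ) : stp φ (sc c v) = sc c (stp φ v) := by
  simp only [stp, sc]; ext <;> simp only <;> ring

section
variable {φ : ℝ} (h : φ ^ 3 = φ + 1)
include h

lemma stp_fm (s : ℝ) : stp φ (fm φ s) = f0 φ s := by
  simp only [stp, fm, f0]; ext <;> simp only
  · linear_combination h
  · linear_combination (s + φ) * h

lemma stp_f0 (s : ℝ) : stp φ (f0 φ s) = f1 φ s := by
  simp only [stp, f1, f0]; ext <;> simp only
  · linear_combination -h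
  · linear_combination -(s + φ) * h

lemma stp_f1 (s : ℝ) : stp φ (f1 φ s) = f2 φ s := by
  simp only [stp, f1, f2]; ext <;> simp only
  · linear_combination h
  · linear_combination (s + φ) * h

omit h in
lemma stp_f2 (s : ℝ) : stp φ (f2 φ s) = f3 φ s := by
  simp only [stp, f3, f2]; ext <;> simp only <;> ring

lemma stp_inj {a b : ℝ × ℝ} (hab : stp φ a = stp φ b) : a = b := by
  obtain ⟨b1, b2, b3, b4⟩ := phi_bounds h
  simp only [stp, Prod.mk.injEq] at hab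
  have h1 : a.1 = b.1 := mul_left_cancel₀ (by linarith : -(φ ^ 2 - 1) ≠ 0) hab.2
  ext
  · exact h1
  · have := hab.1; rw [h1] at this; linarith

lemma approx (s : ℝ) :
    (13247 / 10000 * s ^ 2 ≤ φ * s ^ 2 ∧ φ * s ^ 2 ≤ 13248 / 10000 * s ^ 2) ∧
    (17548 / 10000 * s ^ 2 ≤ φ ^ 2 * s ^ 2 ∧ φ ^ 2 * s ^ 2 ≤ 17551 / 10000 * s ^ 2) ∧
    (13247 / 10000 * s - (1 + s ^ 2) / 10000 ≤ φ * s ∧
      φ * s ≤ 13247 / 10000 * s + (1 + s ^ 2) / 10000) ∧
    (17549 / 10000 * s - (1 + s ^ 2) / 5000 ≤ φ ^ 2 * s ∧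
      φ ^ 2 * s ≤ 17549 / 10000 * s + (1 + s ^ 2) / 5000) := by
  obtain ⟨b1, b2, b3, b4⟩ := phi_bounds h
  have key : ∀ a d : ℝ, |a| ≤ d → -(d * (1 + s ^ 2)) ≤ a * s ∧ a * s ≤ d * (1 + s ^ 2) := by
    intro a d ha
    rw [← abs_le, abs_mul]
    have : |s| ≤ 1 + s ^ 2 := by nlinarith [sq_abs s, sq_nonneg (|s| - 1)]
    exact mul_le_mul ha this (abs_nonneg _) ((abs_nonneg _).trans ha)
  have k1 := key (φ - 13247 / 10000) (1 / 10000) (by rw [abs_le]; constructor <;> linarith)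
  have k2 := key (φ ^ 2 - 17549 / 10000) (1 / 5000) (by rw [abs_le]; constructor <;> linarith)
  refine ⟨⟨?_, ?_⟩, ⟨?_, ?_⟩, ⟨?_, ?_⟩, ⟨?_, ?_⟩⟩
  · exact mul_le_mul_of_nonneg_right b1.le (sq_nonneg _)
  · exact mul_le_mul_of_nonneg_right b2.le (sq_nonneg _)
  · exact mul_le_mul_of_nonneg_right b3.le (sq_nonneg _)
  · exact mul_le_mul_of_nonneg_right b4.le (sq_nonneg _)
  · linarith [k1.1]
  · linarith [k1.2]
  · linarith [k2.1]
  · linarith [k2.2]

lemma nm (s : ℝ) : (fm φ s).1 ^ 2 + (fm φ s).2 ^ 2 =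
    2 - 2 * s - 2 * (φ * s) + 4 * (φ ^ 2 * s) + 2 * s ^ 2 + 3 * (φ * s ^ 2) + 2 * φ - 2 * φ ^ 2 := by
  simp only [fm]
  linear_combination (2 * s - 2 * s * φ + s ^ 2 * φ + 2 * φ) * h

lemma n0 (s : ℝ) : (f0 φ s).1 ^ 2 + (f0 φ s).2 ^ 2 =
    -1 + 4 * s + 2 * (φ * s) + 2 * (φ ^ 2 * s) + s ^ 2 + 3 * (φ * s ^ 2) + 2 * (φ ^ 2 * s ^ 2) +
      2 * φ + φ ^ 2 := by
  simp only [f0]
  linear_combination (-2 + 4 * s - 2 * s * φ + s ^ 2 * φ + 2 * φ) * h

lemma n1 (s : ℝ) : (f1 φ s).1 ^ 2 + (f1 φ s).2 ^ 2 =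
    4 * s + 4 * (φ * s) + (φ * s ^ 2) + 2 * (φ ^ 2 * s ^ 2) + φ + 2 * φ ^ 2 := by
  simp only [f1]
  linear_combination (4 * s + s ^ 2 * φ + φ) * h

omit h in
lemma n2 (s : ℝ) : (f2 φ s).1 ^ 2 + (f2 φ s).2 ^ 2 = 1 + 2 * (φ * s) + s ^ 2 + φ ^ 2 := by
  simp only [f2]; ring

lemma n3 (s : ℝ) : (f3 φ s).1 ^ 2 + (f3 φ s).2 ^ 2 = 1 + s ^ 2 + φ - φ ^ 2 := by
  simp only [f3]
  linear_combination φ * h

lemma q3 (s : ℝ) : Qf φ (f3 φ s) = -1 + φ * s + s ^ 2 + φ ^ 2 := by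
  simp only [f3, Qf]
  linear_combination (-1 + s * φ + φ ^ 2) * h

lemma lemB (s : ℝ) : ∃ f : ℝ × ℝ, (f = f0 φ s ∨ f = f1 φ s ∨ f = f2 φ s ∨ f = f3 φ s) ∧
    f.1 ^ 2 + f.2 ^ 2 ≤ 187 / 100 * Qf φ (f3 φ s) := by
  obtain ⟨b1, b2, b3, b4⟩ := phi_bounds h
  obtain ⟨⟨a1, a2⟩, ⟨a3, a4⟩, ⟨a5, a6⟩, ⟨a7, a8⟩⟩ := approx h s
  rw [q3 h]
  rcases le_total s (-132 / 100) with c1 | c1
  · refine ⟨_, Or.inr (Or.inr (Or.inl rfl)), ?_⟩
    rw [n2]
    nlinarith [mul_nonneg (by linarith : 0 ≤ -132 / 100 - s) (by linarith : 0 ≤ -132 / 100 - s)]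
  rcases le_total s (-76 / 100) with c2 | c2
  · refine ⟨_, Or.inr (Or.inl rfl), ?_⟩
    rw [n1 h]
    nlinarith [mul_nonneg (by linarith : 0 ≤ s + 132 / 100) (by linarith : 0 ≤ -76 / 100 - s)]
  rcases le_total s (-392 / 1000) with c3 | c3
  · refine ⟨_, Or.inl rfl, ?_⟩
    rw [n0 h]
    nlinarith [mul_nonneg (by linarith : 0 ≤ s + 76 / 100) (by linarith : 0 ≤ -392 / 1000 - s)]
  · refine ⟨_, Or.inr (Or.inr (Or.inr rfl)), ?_⟩
    rw [n3 h]
    nlinarith [mul_nonneg (by linarith : 0 ≤ s + 392 / 1000) (by linarith : 0 ≤ s + 392 / 1000)]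

end

/-- the arc of directions for which the unit-class point is a best approximation -/
structure ArcOK (φ : ℝ) (nrm : ℝ × ℝ → ℝ) (s₀ : ℝ) : Prop where
  inside : ∀ s, s₀ < s → s ≠ 0 → nrm (f3 φ s) < nrm (f2 φ s) ∧ nrm (f3 φ s) < nrm (f1 φ s) ∧
    nrm (f3 φ s) < nrm (f0 φ s) ∧ nrm (f3 φ s) < nrm (fm φ s)
  outside : ∀ s, s ≤ s₀ → nrm (f2 φ s) ≤ nrm (f3 φ s) ∨ nrm (f1 φ s) ≤ nrm (f3 φ s) ∨
    nrm (f0 φ s) ≤ nrm (f3 φ s)
  pos : -φ / 2 < s₀

lemma sup_normOK : NormOK (fun v : ℝ × ℝ => max |v.1| |v.2|) := by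
  refine ⟨?_, ?_, ?_, ?_, ?_⟩
  · intro c u v
    simp only [abs_mul]
    rw [mul_max_of_nonneg _ _ (abs_nonneg c)]
  · intro v; exact le_max_left _ _
  · intro v; exact le_max_right _ _
  · intro v
    rcases le_total |v.1| |v.2| with hh | hh
    · rw [max_eq_right hh, sq_abs]; nlinarith [sq_nonneg v.1]
    · rw [max_eq_left hh, sq_abs]; nlinarith [sq_nonneg v.2]
  · intro a b c d h1 h2 _ v
    have key : ∀ a b : ℝ, (a + b ≤ 1 ∧ a - b ≤ 1 ∧ -a + b ≤ 1 ∧ -a - b ≤ 1) →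
        |a * v.1 + b * v.2| ≤ max |v.1| |v.2| := by
      intro a b ⟨k1, k2, k3, k4⟩
      have m1 := le_max_left |v.1| |v.2|
      have m2 := le_max_right |v.1| |v.2|
      have hab : |a| + |b| ≤ 1 := by
        rcases abs_cases a with ⟨e1, -⟩ | ⟨e1, -⟩ <;> rcases abs_cases b with ⟨e2, -⟩ | ⟨e2, -⟩ <;>
          linarith
      calc |a * v.1 + b * v.2| ≤ |a * v.1| + |b * v.2| := abs_add_le _ _
        _ = |a| * |v.1| + |b| * |v.2| := by rw [abs_mul, abs_mul]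
        _ ≤ |a| * max |v.1| |v.2| + |b| * max |v.1| |v.2| := by gcongr
        _ = (|a| + |b|) * max |v.1| |v.2| := by ring
        _ ≤ 1 * max |v.1| |v.2| := by
          apply mul_le_mul_of_nonneg_right hab ((abs_nonneg _).trans m1)
        _ = _ := one_mul _
    exact max_le (key a b h1) (key c d h2)

lemma euc_normOK : NormOK (fun v : ℝ × ℝ => √(v.1 ^ 2 + v.2 ^ 2)) := by
  refine ⟨?_, ?_, ?_, ?_, ?_⟩
  · intro c u v
    simp only
    rw [show (c * u) ^ 2 + (c * v) ^ 2 = c ^ 2 * (u ^ 2 + v ^ 2) by ring,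
      Real.sqrt_mul (sq_nonneg c), Real.sqrt_sq_eq_abs]
  · intro v; exact Real.abs_le_sqrt (by nlinarith [sq_nonneg v.2])
  · intro v; exact Real.abs_le_sqrt (by nlinarith [sq_nonneg v.1])
  · intro v; rw [Real.sq_sqrt (by positivity)]
  · intro a b c d _ _ h3 v
    apply Real.sqrt_le_sqrt
    simp only
    have h4 : (a ^ 2 + b ^ 2 + c ^ 2 + d ^ 2) * (v.1 ^ 2 + v.2 ^ 2) ≤ 1 * (v.1 ^ 2 + v.2 ^ 2) :=
      mul_le_mul_of_nonneg_right h3 (by positivity)
    nlinarith [sq_nonneg (a * v.2 - b * v.1), sq_nonneg (c * v.2 - d * v.1)]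

lemma sup_arc {φ : ℝ} (h : φ ^ 3 = φ + 1) :
    ArcOK φ (fun v : ℝ × ℝ => max |v.1| |v.2|) (φ - φ ^ 2) := by
  obtain ⟨b1, b2, b3, b4⟩ := phi_bounds h
  have e3 : ∀ s, max |(f3 φ s).1| |(f3 φ s).2| = max |s| (φ ^ 2 - 1) := by
    intro s; simp only [f3]; rw [abs_neg, abs_of_pos (by linarith : 0 < φ ^ 2 - 1)]
  have i1 : (φ + 1) * (φ - φ ^ 2) = -1 := by linear_combination -h
  have i2 : φ * (φ ^ 2 - 1) = 1 := by linear_combination h
  refine ⟨fun s hs hs0 => ?_, fun s hs => ?_, by linarith⟩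
  · simp only [e3]
    have k0 : -1 < (φ + 1) * s := by
      rw [← i1]; exact mul_lt_mul_of_pos_left hs (by linarith)
    have k1 : φ * (φ - φ ^ 2) < φ * s := mul_lt_mul_of_pos_left hs (by linarith)
    have k2 : φ * (φ - φ ^ 2) = φ ^ 2 - φ - 1 := by linear_combination -h
    rcases lt_or_gt_of_ne hs0 with hn | hp
    · have m : max |s| (φ ^ 2 - 1) = φ ^ 2 - 1 := by
        rw [max_eq_right]; rw [abs_of_neg hn]; linarith
      rw [m]
      refine ⟨lt_max_of_lt_left ?_, lt_max_of_lt_left ?_, lt_max_of_lt_left ?_,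
        lt_max_of_lt_right ?_⟩
      · simp only [f2, abs_one]; linarith
      · simp only [f1]; rw [lt_abs]; right; linarith
      · simp only [f0]; rw [lt_abs]; left; linarith
      · simp only [fm]; rw [lt_abs]; left; nlinarith
    · have k3 : s < φ * s := by nlinarith
      rw [abs_of_pos hp]
      refine ⟨?_, ?_, ?_, ?_⟩
      · apply max_lt
        · apply lt_max_of_lt_right; simp only [f2]; rw [lt_abs]; left; linarith
        · apply lt_max_of_lt_left; simp only [f2, abs_one]; linarith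
      · apply lt_max_of_lt_left; simp only [f1]; rw [lt_abs]; right
        apply max_lt <;> linarith
      · apply lt_max_of_lt_left; simp only [f0]; rw [lt_abs]; left
        apply max_lt <;> linarith
      · apply lt_max_of_lt_left; simp only [fm]; rw [lt_abs]; right
        apply max_lt <;> linarith
  · simp only [e3]
    have hs0 : s < 0 := by linarith
    rw [abs_of_neg hs0]
    rcases le_total s (-φ) with c1 | c1
    · left
      apply le_max_of_le_left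
      simp only [f2, abs_one]
      apply max_le (by linarith)
      rw [abs_le]; constructor <;> linarith
    rcases le_total s (-(φ ^ 2 - 1)) with c2 | c2
    · right; left
      apply le_max_of_le_left
      simp only [f1]
      have k1 : φ * (-φ) ≤ φ * s := mul_le_mul_of_nonneg_left c1 (by linarith)
      have k2 : (φ + 1) * s ≤ (φ + 1) * (-(φ ^ 2 - 1)) := mul_le_mul_of_nonneg_left c2 (by linarith)
      have k3 : (φ ^ 2 - 1) * (-φ) ≤ (φ ^ 2 - 1) * s := mul_le_mul_of_nonneg_left c1 (by linarith)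
      have k4 : φ ^ 2 * s ≤ φ ^ 2 * (-(φ ^ 2 - 1)) := mul_le_mul_of_nonneg_left c2 (by linarith)
      have k5 : φ ^ 2 * (φ ^ 2 - 1) = φ := by linear_combination φ * h
      apply max_le <;> rw [abs_le] <;> constructor <;> nlinarith
    · right; right
      apply le_max_of_le_right
      simp only [f0]
      have k1 : (φ + 1) * s ≤ (φ + 1) * (φ - φ ^ 2) := mul_le_mul_of_nonneg_left hs (by linarith)
      have k2 : (φ + 1) * (-(φ ^ 2 - 1)) ≤ (φ + 1) * s := mul_le_mul_of_nonneg_left c2 (by linarith)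
      have k3 : φ ^ 2 * s ≤ φ ^ 2 * (φ - φ ^ 2) := mul_le_mul_of_nonneg_left hs (by linarith)
      have k4 : φ ^ 2 * (-(φ ^ 2 - 1)) ≤ φ ^ 2 * s := mul_le_mul_of_nonneg_left c2 (by linarith)
      have k5 : φ ^ 2 * (φ ^ 2 - 1) = φ := by linear_combination φ * h
      have k6 : φ ^ 2 * (φ - φ ^ 2) = 1 - φ ^ 2 := by linear_combination (1 - φ) * h
      apply max_le <;> rw [abs_le] <;> constructor <;> nlinarith

lemma euc_arc {φ : ℝ} (h : φ ^ 3 = φ + 1) :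
    ArcOK φ (fun v : ℝ × ℝ => √(v.1 ^ 2 + v.2 ^ 2))
      ((√(3 * φ ^ 2 + φ - 2) - (φ ^ 2 + φ + 2)) / (2 * φ ^ 2 + 3 * φ)) := by
  obtain ⟨b1, b2, b3, b4⟩ := phi_bounds h
  set R := √(3 * φ ^ 2 + φ - 2) with hR
  have hR2 : R ^ 2 = 3 * φ ^ 2 + φ - 2 := Real.sq_sqrt (by linarith)
  have hR0 : 0 ≤ R := Real.sqrt_nonneg _
  have hR1 : 214 / 100 < R := by nlinarith
  have hR3 : R < 215 / 100 := by nlinarith
  have hA : 0 < 2 * φ ^ 2 + 3 * φ := by linarith
  set s₀ := (R - (φ ^ 2 + φ + 2)) / (2 * φ ^ 2 + 3 * φ) with hs₀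
  have hs1 : (2 * φ ^ 2 + 3 * φ) * s₀ = R - (φ ^ 2 + φ + 2) := by rw [hs₀]; field_simp
  have hs2 : -4 / 10 < s₀ := by rw [hs₀, lt_div_iff₀ hA]; linarith
  have hs3 : s₀ < -39 / 100 := by rw [hs₀, div_lt_iff₀ hA]; linarith
  have fac : ∀ s, (2 * φ ^ 2 + 3 * φ) * (((f0 φ s).1 ^ 2 + (f0 φ s).2 ^ 2) -
      ((f3 φ s).1 ^ 2 + (f3 φ s).2 ^ 2)) =
      ((2 * φ ^ 2 + 3 * φ) * s + (φ ^ 2 + φ + 2) - R) *
        ((2 * φ ^ 2 + 3 * φ) * s + (φ ^ 2 + φ + 2) + R) := by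
    intro s
    rw [n0 h, n3 h]
    linear_combination hR2 + (3 * φ + 6) * h
  refine ⟨fun s hs _ => ?_, fun s hs => ?_, by linarith⟩
  · obtain ⟨⟨a1, a2⟩, ⟨a3, a4⟩, ⟨a5, a6⟩, ⟨a7, a8⟩⟩ := approx h s
    have k0 : 0 ≤ s + 4 / 10 := by linarith
    have k1 : φ * (-4 / 10) ≤ φ * s := mul_le_mul_of_nonneg_left (by linarith) (by linarith)
    refine ⟨?_, ?_, ?_, ?_⟩ <;> apply Real.sqrt_lt_sqrt (by positivity)
    · rw [n3 h, n2]; linarith
    · rw [n3 h, n1 h]; nlinarith [mul_nonneg k0 k0]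
    · have k2 : (2 * φ ^ 2 + 3 * φ) * s₀ < (2 * φ ^ 2 + 3 * φ) * s := mul_lt_mul_of_pos_left hs hA
      have k3 := mul_pos (by linarith : 0 < (2 * φ ^ 2 + 3 * φ) * s + (φ ^ 2 + φ + 2) - R)
        (by linarith : 0 < (2 * φ ^ 2 + 3 * φ) * s + (φ ^ 2 + φ + 2) + R)
      rw [← fac] at k3
      have := (mul_pos_iff_of_pos_left hA).1 k3
      linarith
    · rw [n3 h, nm h]; nlinarith [sq_nonneg (s + 24 / 100)]
  · rcases le_total s (-9 / 10) with c | c
    · left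
      apply Real.sqrt_le_sqrt
      have k1 : φ * s ≤ φ * (-9 / 10) := mul_le_mul_of_nonneg_left c (by linarith)
      rw [n3 h, n2]; linarith
    · right; right
      apply Real.sqrt_le_sqrt
      have k2 : (2 * φ ^ 2 + 3 * φ) * s ≤ (2 * φ ^ 2 + 3 * φ) * s₀ :=
        mul_le_mul_of_nonneg_left hs hA.le
      have k4 : (2 * φ ^ 2 + 3 * φ) * (-9 / 10) ≤ (2 * φ ^ 2 + 3 * φ) * s :=
        mul_le_mul_of_nonneg_left c hA.le
      have k3 := mul_nonpos_of_nonpos_of_nonneg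
        (by linarith : (2 * φ ^ 2 + 3 * φ) * s + (φ ^ 2 + φ + 2) - R ≤ 0)
        (by linarith : 0 ≤ (2 * φ ^ 2 + 3 * φ) * s + (φ ^ 2 + φ + 2) + R)
      rw [← fac] at k3
      have := nonpos_of_mul_nonpos_left (mul_comm (2 * φ ^ 2 + 3 * φ) _ ▸ k3) hA
      linarith

end Pool.Agent.MP_8d3206_nt

end

section

namespace Pool.Agent.MP_8d3206_nt

open Filter Topology

def pad : ℕ → ℤ
  | 0 => 0
  | 1 => 0
  | 2 => 1
  | n + 3 => pad (n + 1) + pad n

def zz (n : ℕ) : ℤ × ℤ × ℤ := (pad n, pad (n + 1), pad (n + 2))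

def Er (φ : ℝ) (z : ℤ × ℤ × ℤ) : ℝ × ℝ := errVec (φ, φ ^ 2) z

def Af (φ : ℝ) (z : ℤ × ℤ × ℤ) : ℝ := z.2.2 + φ * z.2.1 + (φ ^ 2 - 1) * z.1

lemma pad_nonneg (n : ℕ) : 0 ≤ pad n := by
  induction n using Nat.strong_induction_on with
  | _ n ih =>
    match n with
    | 0 => decide
    | 1 => decide
    | 2 => decide
    | n + 3 => rw [pad]; exact add_nonneg (ih _ (by omega)) (ih _ (by omega))

lemma pad_pos (n : ℕ) : 0 < pad (n + 4) := by
  induction n using Nat.strong_induction_on with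
  | _ n ih =>
    match n with
    | 0 => decide
    | 1 => decide
    | n + 2 =>
      rw [show n + 2 + 4 = (n + 3) + 3 by ring, pad]
      exact add_pos_of_pos_of_nonneg (ih n (by omega)) (pad_nonneg _)

lemma pad_lt (n : ℕ) : pad (n + 8) < pad (n + 9) := by
  have h1 : pad (n + 9) = pad (n + 7) + pad (n + 6) := by rw [pad]
  have h2 : pad (n + 8) = pad (n + 6) + pad (n + 5) := by rw [pad]
  have h3 : pad (n + 7) = pad (n + 5) + pad (n + 4) := by rw [pad]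
  have := pad_pos n
  omega

lemma pad_strictMono : StrictMono (fun n => pad (n + 8)) :=
  strictMono_nat_of_lt_succ (fun n => by simpa [add_right_comm] using pad_lt n)

lemma pad_lt_pad {a b : ℕ} (ha : 8 ≤ a) (hab : a < b) : pad a < pad b := by
  have := pad_strictMono (show a - 8 < b - 8 by omega)
  simp only at this
  rwa [show a - 8 + 8 = a by omega, show b - 8 + 8 = b by omega] at this

lemma pad_le_pad {a b : ℕ} (ha : 8 ≤ a) (hab : a ≤ b) : pad a ≤ pad b := by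
  rcases hab.lt_or_eq with h | rfl
  · exact (pad_lt_pad ha h).le
  · rfl

lemma basis (n : ℕ) (z : ℤ × ℤ × ℤ) :
    ∃ p q r : ℤ, z = p • zz n + q • zz (n + 1) + r • zz (n + 2) := by
  induction n with
  | zero =>
    refine ⟨z.2.2 - z.1, z.2.1, z.1, ?_⟩
    have e0 : zz 0 = (0, 0, 1) := by decide
    have e1 : zz (0 + 1) = (0, 1, 0) := by decide
    have e2 : zz (0 + 2) = (1, 0, 1) := by decide
    rw [e0, e1, e2]
    ext <;> simp
  | succ n ih =>
    obtain ⟨p, q, r, rfl⟩ := ih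
    refine ⟨q - p, r, p, ?_⟩
    have e : zz (n + 1 + 2) = zz (n + 1) + zz n := by
      simp only [zz]
      ext <;> simp only [Prod.fst_add, Prod.snd_add]
      · rw [show n + 1 + 2 = n + 3 by ring, pad]
      · rw [show n + 1 + 2 + 1 = (n + 1) + 3 by ring, pad]
      · rw [show n + 1 + 2 + 2 = (n + 2) + 3 by ring, pad]
    rw [e]
    module

lemma no_rat {φ : ℝ} (h : φ ^ 3 = φ + 1) (x y : ℤ) (hxy : x * φ = y) : x = 0 := by
  obtain ⟨b1, b2, b3, b4⟩ := phi_bounds h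
  by_contra hx
  have hx' : (x : ℝ) ≠ 0 := by exact_mod_cast hx
  have hφ : φ = ((y / x : ℚ) : ℝ) := by push_cast; field_simp; linarith
  have hr : Polynomial.aeval (y / x : ℚ) (Polynomial.X ^ 3 - Polynomial.X - 1 : Polynomial ℤ) = 0 := by
    have : ((y / x : ℚ) : ℝ) ^ 3 - ((y / x : ℚ) : ℝ) - 1 = 0 := by rw [← hφ]; linarith
    simp only [map_sub, map_pow, Polynomial.aeval_X, map_one]
    exact_mod_cast this
  have hm : (Polynomial.X ^ 3 - Polynomial.X - 1 : Polynomial ℤ).Monic := by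
    monicity!
  obtain ⟨k, hk⟩ := isInteger_of_is_root_of_monic hm hr
  rw [← hk] at hφ
  simp only [algebraMap_int_eq, eq_intCast, Rat.cast_intCast] at hφ
  have h1 : (1 : ℤ) < k := by exact_mod_cast (by linarith : (1 : ℝ) < k)
  have h2 : k < (2 : ℤ) := by exact_mod_cast (by linarith : (k : ℝ) < 2)
  omega

section
variable {φ : ℝ} (h : φ ^ 3 = φ + 1)
include h

lemma Er_succ (n : ℕ) : Er φ (zz (n + 1)) = stp φ (Er φ (zz n)) := by
  simp only [Er, errVec, zz, stp]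
  rw [show n + 1 + 2 = n + 3 by ring, pad]
  ext
  · push_cast; ring
  · push_cast; linear_combination (pad n : ℝ) * h

lemma Af_zz (n : ℕ) : Af φ (zz n) = φ ^ n := by
  induction n with
  | zero => simp [Af, zz, pad]
  | succ n ih =>
    rw [pow_succ, ← ih]
    simp only [Af, zz]
    rw [show n + 1 + 2 = n + 3 by ring, pad]
    push_cast
    linear_combination -(pad n : ℝ) * h

omit h in
lemma Af_eq (z : ℤ × ℤ × ℤ) : Af φ z = (3 * φ ^ 2 - 1) * z.1 - (Er φ z).2 - φ * (Er φ z).1 := by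
  simp only [Af, Er, errVec]; ring

lemma Er_ne (n : ℕ) : (Er φ (zz (n + 1))).1 ≠ 0 := by
  intro hh
  simp only [Er, errVec, zz] at hh
  have h1 : (pad (n + 1) : ℝ) * φ = pad (n + 1 + 1) := by linarith
  have h2 := no_rat h _ _ h1
  rw [h2] at h1
  have h3 : pad (n + 1 + 1) = 0 := by exact_mod_cast (by simpa using h1.symm : (pad (n + 1 + 1) : ℝ) = 0)
  match n with
  | 0 => exact absurd h3 (by decide)
  | 1 => exact absurd h2 (by decide)
  | n + 2 => exact absurd h3 (pad_pos n).ne'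

lemma Qf_zz (n : ℕ) : Qf φ (Er φ (zz n)) = φ * (φ⁻¹) ^ n := by
  obtain ⟨b1, b2, b3, b4⟩ := phi_bounds h
  induction n with
  | zero => simp [Qf, Er, errVec, zz, pad]
  | succ n ih =>
    have := Qf_stp h (Er φ (zz n))
    rw [← Er_succ h, ih] at this
    have hφ : φ ≠ 0 := by linarith
    rw [pow_succ]
    field_simp
    field_simp at this
    linarith

lemma small (δ : ℝ) (hδ : 0 < δ) :
    ∀ᶠ n in atTop, (Er φ (zz n)).1 ^ 2 + (Er φ (zz n)).2 ^ 2 < δ := by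
  obtain ⟨b1, b2, b3, b4⟩ := phi_bounds h
  have t : Tendsto (fun n : ℕ => 4 * (φ * (φ⁻¹) ^ n)) atTop (𝓝 (4 * (φ * 0))) := by
    apply Tendsto.const_mul
    apply Tendsto.const_mul
    exact tendsto_pow_atTop_nhds_zero_of_lt_one (by positivity) (inv_lt_one_of_one_lt₀ (by linarith))
  simp only [mul_zero] at t
  filter_upwards [(tendsto_order.1 t).2 δ hδ] with n hn
  have := Qf_nonneg h (Er φ (zz n))
  rw [Qf_zz h] at this
  linarith

/-- direction parameter -/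
noncomputable def sp (φ : ℝ) (n : ℕ) : ℝ := (Er φ (zz (n + 1))).1 / (Er φ (zz n)).1

lemma param (m : ℕ) : ∃ β : ℝ, β ≠ 0 ∧ Er φ (zz m) = sc β (fm φ (sp φ (m + 3))) ∧
    Er φ (zz (m + 1)) = sc β (f0 φ (sp φ (m + 3))) ∧
    Er φ (zz (m + 2)) = sc β (f1 φ (sp φ (m + 3))) ∧
    Er φ (zz (m + 3)) = sc β (f2 φ (sp φ (m + 3))) ∧
    Er φ (zz (m + 4)) = sc β (f3 φ (sp φ (m + 3))) := by
  have hβ := Er_ne h (m + 2)
  have e3 : Er φ (zz (m + 3)) = sc (Er φ (zz (m + 3))).1 (f2 φ (sp φ (m + 3))) := by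
    simp only [sc, f2, sp]
    rw [Er_succ h (m + 3)]
    ext
    · simp
    · simp only [stp]
      have hβ' : (Er φ (zz (m + 3))).1 ≠ 0 := hβ
      field_simp
      ring
  have e2 : Er φ (zz (m + 2)) = sc (Er φ (zz (m + 3))).1 (f1 φ (sp φ (m + 3))) := by
    apply stp_inj h
    rw [stp_sc, stp_f1 h, ← Er_succ h]; exact e3
  have e1 : Er φ (zz (m + 1)) = sc (Er φ (zz (m + 3))).1 (f0 φ (sp φ (m + 3))) := by
    apply stp_inj h
    rw [stp_sc, stp_f0 h, ← Er_succ h]; exact e2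
  have e0 : Er φ (zz m) = sc (Er φ (zz (m + 3))).1 (fm φ (sp φ (m + 3))) := by
    apply stp_inj h
    rw [stp_sc, stp_fm h, ← Er_succ h]; exact e1
  refine ⟨_, hβ, e0, e1, e2, e3, ?_⟩
  rw [Er_succ h (m + 3), ← stp_f2, ← stp_sc, ← e3]

lemma lemB' (m : ℕ) : ∃ f : ℝ × ℝ, (f = Er φ (zz (m + 1)) ∨ f = Er φ (zz (m + 2)) ∨
    f = Er φ (zz (m + 3)) ∨ f = Er φ (zz (m + 4))) ∧
    f.1 ^ 2 + f.2 ^ 2 ≤ 187 / 100 * Qf φ (Er φ (zz (m + 4))) := by
  obtain ⟨β, -, -, e1, e2, e3, e4⟩ := param h m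
  obtain ⟨f, hf, hf2⟩ := lemB h (sp φ (m + 3))
  refine ⟨sc β f, ?_, ?_⟩
  · rw [e1, e2, e3, e4]
    rcases hf with rfl | rfl | rfl | rfl <;> simp
  · rw [e4]
    have := mul_le_mul_of_nonneg_left hf2 (sq_nonneg β)
    simp only [sc, Qf] at this ⊢
    linarith

variable {nrm : ℝ × ℝ → ℝ} (H : NormOK nrm)
include H

lemma lemK (m : ℕ) (hm : ∀ n ≥ m, (Er φ (zz n)).1 ^ 2 + (Er φ (zz n)).2 ^ 2 < 1 / 16)
    (z : ℤ × ℤ × ℤ) (hz : z ≠ 0) (hx : |z.1| < pad (m + 5)) :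
    nrm (Er φ (zz (m + 1))) ≤ nrm (Er φ z) ∨ nrm (Er φ (zz (m + 2))) ≤ nrm (Er φ z) ∨
    nrm (Er φ (zz (m + 3))) ≤ nrm (Er φ z) ∨ nrm (Er φ (zz (m + 4))) ≤ nrm (Er φ z) := by
  obtain ⟨b1, b2, b3, b4⟩ := phi_bounds h
  by_cases hs : nrm (Er φ (zz (m + 1))) ≤ nrm (Er φ z)
  · exact Or.inl hs
  push Not at hs
  have sm : ∀ n ≥ m, nrm (Er φ (zz n)) < 1 / 4 := by
    intro n hn
    have a1 := hm n hn
    have a2 := H.sq (Er φ (zz n))
    exact lt_of_pow_lt_pow_left₀ 2 (by norm_num) (by linarith)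
  have a1 := lt_of_le_of_lt (H.fst (Er φ z)) (hs.trans (sm _ (by omega)))
  have a2 := lt_of_le_of_lt (H.snd (Er φ z)) (hs.trans (sm _ (by omega)))
  have a3 := lt_of_le_of_lt (H.fst _) (sm (m + 5) (by omega))
  have a4 := lt_of_le_of_lt (H.snd _) (sm (m + 5) (by omega))
  have a5 := Af_eq (φ := φ) z
  have a6 := Af_eq (φ := φ) (zz (m + 5))
  rw [Af_zz h] at a6
  have a7 : |(z.1 : ℝ)| ≤ (zz (m + 5)).1 - 1 := by
    have : |z.1| ≤ pad (m + 5) - 1 := by omega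
    exact_mod_cast this
  have hA : |Af φ z| < φ ^ (m + 5) := by
    rw [abs_lt] at a1 a2 a3 a4
    rw [abs_le] at a7
    have c1 := mul_le_mul_of_nonneg_left a7.1 (by linarith : 0 ≤ 3 * φ ^ 2 - 1)
    have c2 := mul_le_mul_of_nonneg_left a7.2 (by linarith : 0 ≤ 3 * φ ^ 2 - 1)
    have c3 := mul_lt_mul_of_pos_left a1.1 (by linarith : 0 < φ)
    have c4 := mul_lt_mul_of_pos_left a1.2 (by linarith : 0 < φ)
    have c5 := mul_lt_mul_of_pos_left a3.1 (by linarith : 0 < φ)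
    have c6 := mul_lt_mul_of_pos_left a3.2 (by linarith : 0 < φ)
    rw [abs_lt]
    constructor <;> linarith [a2.1, a2.2, a4.1, a4.2]
  obtain ⟨p, q, r, hpqr⟩ := basis (m + 2) z
  have hA2 : Af φ z = φ ^ (m + 2) * (p + q * φ + r * φ ^ 2) := by
    have : Af φ z = p * Af φ (zz (m + 2)) + q * Af φ (zz (m + 2 + 1)) + r * Af φ (zz (m + 2 + 2)) := by
      rw [hpqr]; simp only [Af, Prod.fst_add, Prod.snd_add, Prod.smul_fst, Prod.smul_snd, smul_eq_mul]
      push_cast; ring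
    rw [this, Af_zz h, Af_zz h, Af_zz h]; ring
  have hE : Er φ z = comb φ (Er φ (zz (m + 1))) p q r := by
    simp only [comb]
    rw [← Er_succ h, ← Er_succ h, ← Er_succ h, hpqr]
    simp only [Er, errVec, Prod.fst_add, Prod.snd_add, Prod.smul_fst, Prod.smul_snd, smul_eq_mul]
    ext <;> push_cast <;> ring
  have hpos : 0 < φ ^ (m + 2) := by positivity
  have h1 : |p + q * φ + r * φ ^ 2| < φ + 1 := by
    rw [hA2, abs_mul, abs_of_pos hpos, show m + 5 = m + 2 + 3 by ring, pow_add φ (m + 2) 3, h] at hA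
    exact lt_of_mul_lt_mul_left hA hpos.le
  have h0 : (p, q, r) ≠ (0, 0, 0) := by
    intro hh
    simp only [Prod.mk.injEq] at hh
    apply hz
    rw [hpqr, hh.1, hh.2.1, hh.2.2]; simp
  have hB := lemB' h m
  have := finiteK h H (Er φ (zz (m + 1))) p q r h0 h1 (by
    rw [← Er_succ h, ← Er_succ h, ← Er_succ h]; exact hB)
  rw [← Er_succ h, ← Er_succ h, ← Er_succ h, ← hE] at this
  exact this

omit h in
lemma nrm_sc (β : ℝ) (v : ℝ × ℝ) : nrm (sc β v) = |β| * nrm v := H.smul β v.1 v.2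

variable {s₀ : ℝ} (HA : ArcOK φ nrm s₀)
include HA

lemma best_imp (m : ℕ) (h8 : 8 ≤ m)
    (hm : ∀ n ≥ m, (Er φ (zz n)).1 ^ 2 + (Er φ (zz n)).2 ^ 2 < 1 / 16)
    (z : ℤ × ℤ × ℤ) (hz : IsBest nrm (φ, φ ^ 2) z) (h1 : pad (m + 4) ≤ |z.1|)
    (h2 : |z.1| < pad (m + 5)) : |z.1| = pad (m + 4) ∧ s₀ < sp φ (m + 3) := by
  have key : ∀ j, j ≤ m + 4 → m < j → nrm (Er φ (zz j)) ≤ nrm (Er φ z) →
      j = m + 4 ∧ (z = zz j ∨ z = -zz j) := by
    intro j hj hj2 hle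
    have hp : 0 < pad j := by
      have := pad_pos (j - 4); rwa [show j - 4 + 4 = j by omega] at this
    have hle2 : pad j ≤ pad (m + 4) := pad_le_pad (by omega) hj
    have := hz.2 (zz j) (by simp only [zz]; rw [abs_of_pos hp]; omega) hle
    have hj' : |z.1| = pad j ∧ (z = zz j ∨ z = -zz j) := by
      rcases this with hh | hh | hh
      · exfalso; have := congrArg Prod.fst hh; simp only [zz, Prod.fst_zero] at this; omega
      · exact ⟨by rw [← hh]; simp only [zz]; exact abs_of_pos hp, Or.inl hh.symm⟩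
      · refine ⟨?_, Or.inr (by rw [hh, neg_neg])⟩
        have := congrArg Prod.fst hh
        simp only [zz, Prod.fst_neg] at this
        rw [← abs_neg, ← this]; exact abs_of_pos hp
    refine ⟨?_, hj'.2⟩
    by_contra hne
    have := pad_lt_pad (a := j) (b := m + 4) (by omega) (by omega)
    omega
  have hz4 : z = zz (m + 4) ∨ z = -zz (m + 4) := by
    rcases lemK h H m hm z hz.1 h2 with hh | hh | hh | hh
    · have := (key _ (by omega) (by omega) hh).1; omega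
    · have := (key _ (by omega) (by omega) hh).1; omega
    · have := (key _ (by omega) (by omega) hh).1; omega
    · exact (key _ (by omega) (by omega) hh).2
  have hn : nrm (Er φ z) = nrm (Er φ (zz (m + 4))) := by
    rcases hz4 with rfl | rfl
    · rfl
    · rw [← nrm_neg H]
      congr 1
      simp only [Er, errVec, Prod.fst_neg, Prod.snd_neg]
      ext <;> push_cast <;> ring
  refine ⟨?_, ?_⟩
  · rcases hz4 with rfl | rfl
    · exact abs_of_pos (pad_pos m)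
    · rw [Prod.fst_neg, abs_neg]; exact abs_of_pos (pad_pos m)
  · by_contra hs
    push Not at hs
    obtain ⟨β, -, -, e1, e2, e3, e4⟩ := param h m
    rw [e4, nrm_sc H] at hn
    rcases HA.outside _ hs with hh | hh | hh
    · have := (key (m + 3) (by omega) (by omega) (by
        rw [hn, e3, nrm_sc H]; exact mul_le_mul_of_nonneg_left hh (abs_nonneg _))).1
      omega
    · have := (key (m + 2) (by omega) (by omega) (by
        rw [hn, e2, nrm_sc H]; exact mul_le_mul_of_nonneg_left hh (abs_nonneg _))).1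
      omega
    · have := (key (m + 1) (by omega) (by omega) (by
        rw [hn, e1, nrm_sc H]; exact mul_le_mul_of_nonneg_left hh (abs_nonneg _))).1
      omega

lemma imp_best (m : ℕ)
    (hm : ∀ n ≥ m, (Er φ (zz n)).1 ^ 2 + (Er φ (zz n)).2 ^ 2 < 1 / 16)
    (hs : s₀ < sp φ (m + 4)) : IsBest nrm (φ, φ ^ 2) (zz (m + 5)) := by
  have hp : 0 < pad (m + 5) := pad_pos (m + 1)
  refine ⟨fun hh => ?_, fun w hw hle => ?_⟩
  · have := congrArg Prod.fst hh
    simp only [zz, Prod.fst_zero] at this; omega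
  change nrm (Er φ w) ≤ nrm (Er φ (zz (m + 5))) at hle
  have hw' : |w.1| ≤ pad (m + 5) := by
    simp only [zz] at hw; rwa [abs_of_pos hp] at hw
  by_cases hw0 : w = 0
  · exact Or.inl hw0
  right
  rcases hw'.lt_or_eq with hlt | heq
  · exfalso
    obtain ⟨β, hβ, e0, e1, e2, e3, e4⟩ := param h (m + 1)
    have hs0 : sp φ (m + 4) ≠ 0 := div_ne_zero (Er_ne h _) (Er_ne h (m + 3))
    obtain ⟨i1, i2, i3, i4⟩ := HA.inside _ hs hs0
    have hβ' : 0 < |β| := abs_pos.2 hβ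
    rw [e4, nrm_sc H] at hle
    rcases lemK h H m hm w hw0 hlt with hh | hh | hh | hh
    · rw [e0, nrm_sc H] at hh
      exact absurd (hh.trans hle) (not_le.2 (mul_lt_mul_of_pos_left i4 hβ'))
    · rw [e1, nrm_sc H] at hh
      exact absurd (hh.trans hle) (not_le.2 (mul_lt_mul_of_pos_left i3 hβ'))
    · rw [e2, nrm_sc H] at hh
      exact absurd (hh.trans hle) (not_le.2 (mul_lt_mul_of_pos_left i2 hβ'))
    · rw [e3, nrm_sc H] at hh
      exact absurd (hh.trans hle) (not_le.2 (mul_lt_mul_of_pos_left i1 hβ'))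
  · have sm : nrm (Er φ (zz (m + 5))) < 1 / 4 := by
      have a1 := hm (m + 5) (by omega)
      have a2 := H.sq (Er φ (zz (m + 5)))
      exact lt_of_pow_lt_pow_left₀ 2 (by norm_num) (by linarith)
    have a1 := abs_lt.1 (lt_of_le_of_lt (H.fst (Er φ w)) (lt_of_le_of_lt hle sm))
    have a2 := abs_lt.1 (lt_of_le_of_lt (H.snd (Er φ w)) (lt_of_le_of_lt hle sm))
    have a3 := abs_lt.1 (lt_of_le_of_lt (H.fst _) sm)
    have a4 := abs_lt.1 (lt_of_le_of_lt (H.snd _) sm)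
    simp only [Er, errVec] at a1 a2 a3 a4
    have int0 : ∀ a b : ℤ, |(a : ℝ) - b| < 1 → a = b := by
      intro a b hab
      have : |a - b| < 1 := by exact_mod_cast hab
      rw [Int.abs_lt_one_iff] at this; omega
    rcases abs_eq_abs.1 (heq.trans (abs_of_pos hp).symm) with hx | hx
    · left
      have hx' : (w.1 : ℝ) = (zz (m + 5)).1 := by exact_mod_cast hx
      rw [hx'] at a1 a2
      ext
      · exact hx
      · apply int0; rw [abs_lt]; constructor <;> linarith [a1.1, a1.2, a3.1, a3.2]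
      · apply int0; rw [abs_lt]; constructor <;> linarith [a2.1, a2.2, a4.1, a4.2]
    · right
      have hx' : (w.1 : ℝ) = -(zz (m + 5)).1 := by exact_mod_cast hx
      rw [hx'] at a1 a2
      ext
      · exact hx
      · apply int0; simp only [Prod.snd_neg, Prod.fst_neg]; push_cast
        rw [abs_lt]; constructor <;> linarith [a1.1, a1.2, a3.1, a3.2]
      · apply int0; simp only [Prod.snd_neg]; push_cast
        rw [abs_lt]; constructor <;> linarith [a2.1, a2.2, a4.1, a4.2]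

end

end Pool.Agent.MP_8d3206_nt

end
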