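import Mathlib
import Pool.Agent.MP_8d3206_nt.GDefs
import Pool.Agent.Mg.F8d3206.G964230
import Pool.Agent.MP_8d3206_nt.GLim

section

namespace Pool.Agent.MP_8d3206_nt

open Real Filter Topology

/-- multiplication by the unit -/
def TE : (ℤ × ℤ × ℤ) ≃+ (ℤ × ℤ × ℤ) where
  toFun z := (z.2.1, z.2.2, z.1 + z.2.1)
  invFun z := (z.2.2 - z.1, z.1, z.2.1)
  left_inv z := by ext <;> simp
  right_inv z := by ext <;> simp
  map_add' z w := by ext <;> simp; ring

/-- powers of `TE` -/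
def Tk : ℕ → (ℤ × ℤ × ℤ) ≃+ (ℤ × ℤ × ℤ)
  | 0 => AddEquiv.refl _
  | k + 1 => (Tk k).trans TE

lemma TE_apply (z : ℤ × ℤ × ℤ) : TE z = (z.2.1, z.2.2, z.1 + z.2.1) := rfl

lemma Tk_succ (k : ℕ) (z : ℤ × ℤ × ℤ) : Tk (k + 1) z = TE (Tk k z) := rfl

/-- the angle -/
noncomputable def ang (φ : ℝ) : ℝ := arccos (-(φ * √φ) / 2)

/-- the rotated error -/
noncomputable def FF (N : ℝ × ℝ → ℝ) (φ t : ℝ) (z : ℤ × ℤ × ℤ) : ℝ := N (rot φ t (Er φ z))

lemma ht_neg (φ : ℝ) (z : ℤ × ℤ × ℤ) : ht φ (-z) = -ht φ z := by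
  simp only [ht, Prod.fst_neg, Prod.snd_neg]; push_cast; ring

lemma ht_sub (φ : ℝ) (z w : ℤ × ℤ × ℤ) : ht φ (z - w) = ht φ z - ht φ w := by
  simp only [ht, Prod.fst_sub, Prod.snd_sub]; push_cast; ring

lemma Er_neg (φ : ℝ) (z : ℤ × ℤ × ℤ) : Er φ (-z) = -Er φ z := by
  simp only [Er, errVec, Prod.fst_neg, Prod.snd_neg]; push_cast; ext <;> simp <;> ring

lemma Er_sub (φ : ℝ) (z w : ℤ × ℤ × ℤ) : Er φ (z - w) = Er φ z - Er φ w := by
  simp only [Er, errVec, Prod.fst_sub, Prod.snd_sub]; push_cast; ext <;> simp <;> ring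

lemma ht_eq (φ : ℝ) (z : ℤ × ℤ × ℤ) :
    ht φ z = (3 * φ ^ 2 - 1) * z.1 - (Er φ z).2 - φ * (Er φ z).1 := Af_eq z

lemma rot_smul (φ t c : ℝ) (v : ℝ × ℝ) : rot φ t (c • v) = c • rot φ t v := by
  simp only [rot]; ext <;> simp <;> ring

lemma rot_neg (φ t : ℝ) (v : ℝ × ℝ) : rot φ t (-v) = -rot φ t v := by
  simpa using rot_smul φ t (-1) v

lemma rot_zero (φ : ℝ) (v : ℝ × ℝ) : rot φ 0 v = v := by simp [rot]

lemma rot_add_pi (φ t : ℝ) (v : ℝ × ℝ) : rot φ (t + π) v = -rot φ t v := by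
  simp only [rot, cos_add_pi, sin_add_pi]; ext <;> simp <;> ring

lemma rot_cont (φ : ℝ) (v : ℝ × ℝ) : Continuous fun t => rot φ t v := by
  unfold rot; fun_prop

section
variable {φ : ℝ} (h : φ ^ 3 = φ + 1)
include h

lemma sig_sq : √(3 * φ ^ 2 - 4) ^ 2 = 3 * φ ^ 2 - 4 := by
  obtain ⟨b1, b2, b3, b4⟩ := phi_bounds h
  exact Real.sq_sqrt (by linarith)

lemma sig_gt : 1 < √(3 * φ ^ 2 - 4) := by
  obtain ⟨b1, b2, b3, b4⟩ := phi_bounds h
  exact Real.lt_sqrt_of_sq_lt (by linarith)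

lemma ht_TE (z : ℤ × ℤ × ℤ) : ht φ (TE z) = φ * ht φ z := by
  simp only [ht, TE_apply]; push_cast; linear_combination -(z.1 : ℝ) * h

lemma ht_Tk (k : ℕ) (z : ℤ × ℤ × ℤ) : ht φ (Tk k z) = φ ^ k * ht φ z := by
  induction k with
  | zero => simp [Tk]
  | succ k ih => rw [Tk_succ, ht_TE h, ih]; ring

lemma Er_TE (z : ℤ × ℤ × ℤ) : Er φ (TE z) = stp φ (Er φ z) := by
  simp only [Er, errVec, stp, TE_apply]
  ext
  · simp only; ring
  · simp only; push_cast; linear_combination (z.1 : ℝ) * h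

lemma rot_add (s t : ℝ) (v : ℝ × ℝ) : rot φ (s + t) v = rot φ s (rot φ t v) := by
  have h1 := sig_sq h
  have h2 := sig_gt h
  simp only [rot, cos_add, sin_add]
  generalize √(3 * φ ^ 2 - 4) = σ at *
  have h3 : σ ≠ 0 := by linarith
  ext
  · simp only [Prod.fst_add, Prod.smul_fst, Prod.snd_add, Prod.smul_snd, smul_eq_mul]
    field_simp
    linear_combination (-(sin s * sin t * v.1)) * h1
  · simp only [Prod.fst_add, Prod.smul_fst, Prod.snd_add, Prod.smul_snd, smul_eq_mul]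
    field_simp
    linear_combination (-(sin s * sin t * v.2)) * h1

lemma cos_ang : cos (ang φ) = -(φ * √φ) / 2 := by
  obtain ⟨b1, b2, b3, b4⟩ := phi_bounds h
  have h1 : √φ < 3 / 2 := Real.sqrt_lt' (by norm_num) |>.2 (by linarith)
  have h2 : 0 ≤ √φ := Real.sqrt_nonneg _
  exact cos_arccos (by nlinarith) (by nlinarith)

lemma sin_ang : sin (ang φ) = √(3 * φ ^ 2 - 4) * √φ / 2 := by
  obtain ⟨b1, b2, b3, b4⟩ := phi_bounds h
  have h1 := sig_sq h
  have h2 : √φ ^ 2 = φ := Real.sq_sqrt (by linarith)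
  rw [ang, sin_arccos, Real.sqrt_eq_iff_mul_self_eq (by
    rw [div_pow, neg_sq, mul_pow, h2]; nlinarith) (by positivity)]
  rw [div_pow, neg_sq, mul_pow, h2]
  linear_combination (-(√φ ^ 2 / 4)) * h1 - ((3 * φ ^ 2 - 4) / 4) * h2 - h

lemma rot_ang (v : ℝ × ℝ) : rot φ (ang φ) v = √φ • stp φ v := by
  have h2 := sig_gt h
  simp only [rot, cos_ang h, sin_ang h, stp]
  generalize √(3 * φ ^ 2 - 4) = σ at *
  have h3 : σ ≠ 0 := by linarith
  ext
  · simp only [Prod.fst_add, Prod.smul_fst, smul_eq_mul]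
    field_simp
    ring
  · simp only [Prod.snd_add, Prod.smul_snd, smul_eq_mul]
    field_simp
    ring

lemma norm_rot_le (t : ℝ) (v : ℝ × ℝ) : ‖rot φ t v‖ ≤ 5 * ‖v‖ := by
  obtain ⟨b1, b2, b3, b4⟩ := phi_bounds h
  have h2 := sig_gt h
  have a1 := abs_le.1 (norm_fst_le v)
  have a2 := abs_le.1 (norm_snd_le v)
  have a0 := norm_nonneg v
  have a3 : ‖((2 * v.2 - φ * v.1, φ * v.2 - 2 * (φ ^ 2 - 1) * v.1) : ℝ × ℝ)‖ ≤ 4 * ‖v‖ := by
    rw [norm_prod_le_iff]
    constructor <;> rw [Real.norm_eq_abs, abs_le] <;> constructor <;> nlinarith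
  have a4 : |sin t / √(3 * φ ^ 2 - 4)| ≤ 1 := by
    rw [abs_div, abs_of_pos (by linarith : 0 < √(3 * φ ^ 2 - 4)), div_le_one (by linarith)]
    linarith [abs_sin_le_one t]
  refine (norm_add_le _ _).trans ?_
  rw [norm_smul, norm_smul, Real.norm_eq_abs, Real.norm_eq_abs]
  have a5 := mul_le_mul a4 a3 (norm_nonneg _) zero_le_one
  have a6 := mul_le_mul_of_nonneg_right (abs_cos_le_one t) a0
  linarith

lemma norm_le_rot (t : ℝ) (v : ℝ × ℝ) : ‖v‖ ≤ 5 * ‖rot φ t v‖ := by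
  have := norm_rot_le h (-t) (rot φ t v)
  rwa [← rot_add h, neg_add_cancel, rot_zero] at this

variable (N : Seminorm ℝ (ℝ × ℝ))

lemma FF_TE (t : ℝ) (z : ℤ × ℤ × ℤ) : FF N φ (t + ang φ) z = √φ * FF N φ t (TE z) := by
  rw [FF, FF, rot_add h, rot_ang h, rot_smul, map_smul_eq_mul, Er_TE h,
    Real.norm_of_nonneg (Real.sqrt_nonneg _)]

lemma FF_Tk (k : ℕ) (t : ℝ) (z : ℤ × ℤ × ℤ) :
    FF N φ (t + k * ang φ) z = √φ ^ k * FF N φ t (Tk k z) := by
  induction k generalizing t with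
  | zero => simp [Tk]
  | succ k ih =>
    rw [Tk_succ, pow_succ, mul_assoc, ← FF_TE h, ← ih]
    congr 1
    push_cast
    ring

lemma rotMin_Tk (k : ℕ) (t : ℝ) (z : ℤ × ℤ × ℤ) :
    RotMin N φ t (Tk k z) ↔ RotMin N φ (t + k * ang φ) z := by
  obtain ⟨b1, b2, b3, b4⟩ := phi_bounds h
  have p1 : 0 < φ ^ k := pow_pos (by linarith) k
  have p2 : 0 < √φ ^ k := pow_pos (Real.sqrt_pos.2 (by linarith)) k
  unfold RotMin
  rw [(Tk k).surjective.forall]
  refine and_congr (by simp) (forall_congr' fun w => ?_)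
  change (_ → FF N φ t (Tk k w) ≤ FF N φ t (Tk k z) → _) ↔
    (_ → FF N φ (t + k * ang φ) w ≤ FF N φ (t + k * ang φ) z → _)
  rw [FF_Tk h, FF_Tk h, ht_Tk h, ht_Tk h, abs_mul, abs_mul, abs_of_pos p1,
    mul_le_mul_iff_right₀ p1, mul_le_mul_iff_right₀ p2, ← map_neg]
  simp only [EmbeddingLike.apply_eq_iff_eq, EmbeddingLike.map_eq_zero_iff]

end

variable (N : Seminorm ℝ (ℝ × ℝ))

lemma FF_neg (φ t : ℝ) (z : ℤ × ℤ × ℤ) : FF N φ t (-z) = FF N φ t z := by
  rw [FF, FF, Er_neg, rot_neg, map_neg_eq_map]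

lemma rotMin_neg (φ t : ℝ) {z : ℤ × ℤ × ℤ} (hz : RotMin N φ t z) : RotMin N φ t (-z) := by
  refine ⟨neg_ne_zero.2 hz.1, fun w h1 h2 => ?_⟩
  rw [ht_neg, abs_neg] at h1
  change FF N φ t w ≤ FF N φ t (-z) at h2
  rw [FF_neg] at h2
  rw [neg_neg]
  exact (hz.2 w h1 h2).imp_right Or.symm

lemma rotMin_add_pi (φ t : ℝ) (z : ℤ × ℤ × ℤ) : RotMin N φ (t + π) z ↔ RotMin N φ t z := by
  simp only [RotMin, rot_add_pi, map_neg_eq_map]

lemma semi_le (v : ℝ × ℝ) : N v ≤ (N (1, 0) + N (0, 1)) * ‖v‖ := by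
  have e : v = v.1 • ((1, 0) : ℝ × ℝ) + v.2 • (0, 1) := by ext <;> simp
  have h1 := map_add_le_add N (v.1 • ((1, 0) : ℝ × ℝ)) (v.2 • (0, 1))
  rw [← e, map_smul_eq_mul, map_smul_eq_mul] at h1
  have h2 := mul_le_mul_of_nonneg_right (norm_fst_le v) (apply_nonneg N (1, 0))
  have h3 := mul_le_mul_of_nonneg_right (norm_snd_le v) (apply_nonneg N (0, 1))
  linarith

lemma semi_cont : Continuous N := by
  have h0 : 0 ≤ N (1, 0) + N (0, 1) := add_nonneg (apply_nonneg _ _) (apply_nonneg _ _)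
  refine (LipschitzWith.of_dist_le_mul (K := ⟨_, h0⟩) fun v w => ?_).continuous
  rw [Real.dist_eq, dist_eq_norm]
  exact (abs_sub_map_le_sub N v w).trans (semi_le N _)

lemma semi_ge (hN : ∀ v, N v = 0 → v = 0) : ∃ c, 0 < c ∧ ∀ v, c * ‖v‖ ≤ N v := by
  obtain ⟨v₀, h0, h1⟩ := (isCompact_sphere (0 : ℝ × ℝ) 1).exists_isMinOn
    ⟨(1, 0), by simp⟩ (semi_cont N).continuousOn
  refine ⟨N v₀, (apply_nonneg N v₀).lt_of_ne fun e => ?_, fun v => ?_⟩
  · rw [hN v₀ e.symm] at h0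
    simp at h0
  · rcases eq_or_ne v 0 with rfl | hv
    · simp
    · have p := norm_pos_iff.2 hv
      have h2 : N v₀ ≤ N (‖v‖⁻¹ • v) := h1 (by simp [norm_smul, hv])
      rw [map_smul_eq_mul, norm_inv, norm_norm, inv_mul_eq_div, le_div_iff₀ p] at h2
      exact h2

lemma FF_bounds {φ : ℝ} (h : φ ^ 3 = φ + 1) (hN : ∀ v, N v = 0 → v = 0) :
    ∃ c C, 0 < c ∧ 0 < C ∧ ∀ t z, c * ‖Er φ z‖ ≤ FF N φ t z ∧ FF N φ t z ≤ C * ‖Er φ z‖ := by
  obtain ⟨c, hc, h1⟩ := semi_ge N hN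
  have h0 : 0 ≤ N (1, 0) + N (0, 1) := add_nonneg (apply_nonneg _ _) (apply_nonneg _ _)
  refine ⟨c / 5, 5 * (N (1, 0) + N (0, 1)) + 1, by positivity, by positivity, fun t z => ⟨?_, ?_⟩⟩
  · have := mul_le_mul_of_nonneg_left (norm_le_rot h t (Er φ z)) hc.le
    have := h1 (rot φ t (Er φ z))
    rw [FF]
    linarith
  · have := mul_le_mul_of_nonneg_left (norm_rot_le h t (Er φ z)) h0
    have := semi_le N (rot φ t (Er φ z))
    have := norm_nonneg (Er φ z)
    rw [FF]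
    linarith

lemma FF_cont (φ : ℝ) (z : ℤ × ℤ × ℤ) : Continuous fun t => FF N φ t z :=
  (semi_cont N).comp (rot_cont φ _)

end Pool.Agent.MP_8d3206_nt

end

section

namespace Pool.Agent.MP_8d3206_nt

open Real Filter Topology

lemma eq_of_fst {φ : ℝ} {z w : ℤ × ℤ × ℤ} (hz : ‖Er φ z‖ ≤ 1 / 4) (hw : ‖Er φ w‖ ≤ 1 / 4)
    (e : w.1 = z.1) : w = z := by
  have a1 := abs_le.1 ((norm_fst_le _).trans hz)
  have a2 := abs_le.1 ((norm_snd_le _).trans hz)
  have a3 := abs_le.1 ((norm_fst_le _).trans hw)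
  have a4 := abs_le.1 ((norm_snd_le _).trans hw)
  simp only [Er, errVec, e] at a1 a2 a3 a4
  have b1 : |((w.2.1 - z.2.1 : ℤ) : ℝ)| < 1 := by
    rw [abs_lt]; push_cast; constructor <;> linarith [a1.1, a1.2, a3.1, a3.2]
  have b2 : |((w.2.2 - z.2.2 : ℤ) : ℝ)| < 1 := by
    rw [abs_lt]; push_cast; constructor <;> linarith [a2.1, a2.2, a4.1, a4.2]
  have c1 : |w.2.1 - z.2.1| < 1 := by exact_mod_cast b1
  have c2 : |w.2.2 - z.2.2| < 1 := by exact_mod_cast b2
  rw [Int.abs_lt_one_iff, sub_eq_zero] at c1 c2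
  exact Prod.ext e (Prod.ext c1 c2)

lemma eq_of_abs {φ : ℝ} {z w : ℤ × ℤ × ℤ} (hz : ‖Er φ z‖ ≤ 1 / 4) (hw : ‖Er φ w‖ ≤ 1 / 4)
    (e : |w.1| = |z.1|) : w = z ∨ w = -z :=
  (abs_eq_abs.1 e).imp (eq_of_fst hz hw) (eq_of_fst (by rwa [Er_neg, norm_neg]) hw)

section
variable {φ : ℝ} (h : φ ^ 3 = φ + 1)
include h

lemma ht_approx (z : ℤ × ℤ × ℤ) :
    |(|ht φ z| - (3 * φ ^ 2 - 1) * |(z.1 : ℝ)|)| ≤ 3 * ‖Er φ z‖ := by
  obtain ⟨b1, b2, b3, b4⟩ := phi_bounds h
  have a1 := abs_le.1 (norm_fst_le (Er φ z))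
  have a2 := abs_le.1 (norm_snd_le (Er φ z))
  have a0 := norm_nonneg (Er φ z)
  rw [← abs_of_pos (by linarith : 0 < 3 * φ ^ 2 - 1), ← abs_mul]
  refine (abs_abs_sub_abs_le_abs_sub _ _).trans ?_
  rw [ht_eq, abs_le]
  constructor <;> nlinarith [a1.1, a1.2, a2.1, a2.2]

lemma fin_box (R : ℝ) : {z : ℤ × ℤ × ℤ | |ht φ z| ≤ R ∧ ‖Er φ z‖ ≤ R}.Finite := by
  obtain ⟨b1, b2, b3, b4⟩ := phi_bounds h
  obtain ⟨M, hM⟩ : ∃ M : ℤ, 3 * R ≤ M := ⟨_, Int.le_ceil _⟩
  refine (Set.finite_Icc ((-M, -M, -M) : ℤ × ℤ × ℤ) (M, M, M)).subset fun z hz => ?_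
  have a0 := (norm_nonneg _).trans hz.2
  have a1 := abs_le.1 ((norm_fst_le _).trans hz.2)
  have a2 := abs_le.1 ((norm_snd_le _).trans hz.2)
  have a3 := (abs_le.1 (ht_approx h z)).1
  have a4 : |(z.1 : ℝ)| ≤ R := by nlinarith [hz.1, hz.2, abs_nonneg (z.1 : ℝ)]
  simp only [Er, errVec] at a1 a2
  have a5 := abs_le.1 a4
  have c1 : |(z.1 : ℝ)| ≤ M := by linarith
  have c2 : |(z.2.1 : ℝ)| ≤ M := by rw [abs_le]; constructor <;> nlinarith [a1.1, a1.2]
  have c3 : |(z.2.2 : ℝ)| ≤ M := by rw [abs_le]; constructor <;> nlinarith [a2.1, a2.2]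
  have d1 : |z.1| ≤ M := by exact_mod_cast c1
  have d2 : |z.2.1| ≤ M := by exact_mod_cast c2
  have d3 : |z.2.2| ≤ M := by exact_mod_cast c3
  rw [abs_le] at d1 d2 d3
  exact ⟨⟨d1.1, d2.1, d3.1⟩, d1.2, d2.2, d3.2⟩

lemma cmp_lt {z w : ℤ × ℤ × ℤ} (hz : ‖Er φ z‖ ≤ 1 / 4) (hw : ‖Er φ w‖ ≤ 1 / 4)
    (e : |w.1| < |z.1|) : |ht φ w| < |ht φ z| := by
  obtain ⟨b1, b2, b3, b4⟩ := phi_bounds h
  have a1 := (abs_le.1 (ht_approx h z)).1
  have a2 := (abs_le.1 (ht_approx h w)).2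
  have a3 : |(w.1 : ℝ)| + 1 ≤ |(z.1 : ℝ)| := by exact_mod_cast e
  nlinarith

lemma cmp_iff {z w : ℤ × ℤ × ℤ} (hz : ‖Er φ z‖ ≤ 1 / 4) (hw : ‖Er φ w‖ ≤ 1 / 4) :
    |w.1| ≤ |z.1| ↔ |ht φ w| ≤ |ht φ z| := by
  refine ⟨fun e => ?_, fun e => not_lt.1 fun e' => not_lt.2 e (cmp_lt h hw hz e')⟩
  rcases e.lt_or_eq with e | e
  · exact (cmp_lt h hz hw e).le
  · rcases eq_of_abs hz hw e with rfl | rfl
    · exact le_rfl
    · rw [ht_neg, abs_neg]

lemma ht_inj {z : ℤ × ℤ × ℤ} (e : ht φ z = 0) : z = 0 := by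
  obtain ⟨b1, b2, b3, b4⟩ := phi_bounds h
  obtain ⟨x, y, u⟩ := z
  simp only [ht] at e
  have e1 : ((y ^ 2 - x * u : ℤ) : ℝ) * φ = ((x ^ 2 - y * (u - x) : ℤ) : ℝ) := by
    push_cast
    linear_combination (y - x * φ) * e + (x : ℝ) ^ 2 * h
  have e2 := no_rat h _ _ e1
  rw [e2] at e1
  have e3 : x ^ 2 - y * (u - x) = 0 := by exact_mod_cast (by simpa using e1.symm :
    (x : ℝ) ^ 2 - y * (u - x) = 0)
  have hx : x = 0 := by
    by_contra hx
    have hx' : (x : ℝ) ≠ 0 := by exact_mod_cast hx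
    have e4 : y ^ 3 = y * x ^ 2 + x ^ 3 := by linear_combination y * e2 - x * e3
    have e5 : (y : ℝ) ^ 3 = y * x ^ 2 + x ^ 3 := by exact_mod_cast e4
    exact hx (no_rat (φ := (y : ℝ) / x) (by field_simp; linarith) x y (by field_simp))
  subst hx
  have hy : y = 0 := by simpa using e2
  subst hy
  have hu : u = 0 := by exact_mod_cast (by simpa using e : (u : ℝ) = 0)
  subst hu
  rfl

lemma eq_of_ht {z w : ℤ × ℤ × ℤ} (e : |ht φ w| = |ht φ z|) : w = z ∨ w = -z := by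
  refine (abs_eq_abs.1 e).imp (fun e => ?_) fun e => ?_
  · exact sub_eq_zero.1 (ht_inj h (by rw [ht_sub, e, sub_self]))
  · exact sub_eq_zero.1 (ht_inj h (by rw [ht_sub, ht_neg, e, sub_self]))

lemma ht_zz (n : ℕ) : ht φ (zz n) = φ ^ n := Af_zz h n

lemma zz_ne (n : ℕ) : zz n ≠ 0 := fun e => by
  obtain ⟨b1, b2, b3, b4⟩ := phi_bounds h
  have := ht_zz h n
  rw [e] at this
  exact (pow_pos (by linarith : 0 < φ) n).ne (by simpa [ht] using this)

lemma zz_small {ε : ℝ} (hε : 0 < ε) : ∀ᶠ n in atTop, ‖Er φ (zz n)‖ ≤ ε := by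
  filter_upwards [small h (ε ^ 2) (by positivity)] with n hn
  rw [norm_prod_le_iff]
  constructor <;> rw [Real.norm_eq_abs] <;> apply abs_le_of_sq_le_sq' _ hε.le |> abs_le.2 <;>
    nlinarith [sq_nonneg (Er φ (zz n)).1, sq_nonneg (Er φ (zz n)).2]

end

variable {φ : ℝ} {N : Seminorm ℝ (ℝ × ℝ)}

lemma FF_zero (z : ℤ × ℤ × ℤ) : FF N φ 0 z = N (errVec (φ, φ ^ 2) z) := by
  rw [FF, rot_zero, Er]

lemma lt_of_min {t : ℝ} {z w : ℤ × ℤ × ℤ} (hz : RotMin N φ t z) (hw : w ≠ 0)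
    (e : |ht φ w| < |ht φ z|) : FF N φ t z < FF N φ t w := by
  refine not_le.1 fun e' => ?_
  rcases hz.2 w e.le e' with rfl | rfl | rfl
  · exact hw rfl
  · exact e.ne rfl
  · exact e.ne (by rw [ht_neg, abs_neg])

lemma lt_of_best {z w : ℤ × ℤ × ℤ} (hz : IsBest N (φ, φ ^ 2) z) (hw : w ≠ 0)
    (e : |w.1| < |z.1|) : FF N φ 0 z < FF N φ 0 w := by
  refine not_le.1 fun e' => ?_
  rw [FF_zero, FF_zero] at e'
  rcases hz.2 w e.le e' with rfl | rfl | rfl
  · exact hw rfl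
  · exact e.ne rfl
  · exact e.ne (by simp)

section
variable (h : φ ^ 3 = φ + 1) {c C : ℝ} (hc : 0 < c) (hC : 0 < C)
  (hb : ∀ t z, c * ‖Er φ z‖ ≤ FF N φ t z ∧ FF N φ t z ≤ C * ‖Er φ z‖)
include hc hb

lemma quarter {t : ℝ} {z : ℤ × ℤ × ℤ} (hz : FF N φ t z ≤ c / 4) : ‖Er φ z‖ ≤ 1 / 4 :=
  le_of_mul_le_mul_left ((hb t z).1.trans (by linarith)) hc

include h

lemma best_iff {z : ℤ × ℤ × ℤ} (hz : FF N φ 0 z ≤ c / 4) :
    IsBest N (φ, φ ^ 2) z ↔ RotMin N φ 0 z := by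
  refine and_congr_right fun _ => forall_congr' fun w => ?_
  change (_ → _ → _) ↔ (_ → FF N φ 0 w ≤ FF N φ 0 z → _)
  rw [← FF_zero, ← FF_zero]
  refine ⟨fun H h1 h2 => H ?_ h2, fun H h1 h2 => H ?_ h2⟩
  · exact (cmp_iff h (quarter hc hb hz) (quarter hc hb (h2.trans hz))).2 h1
  · exact (cmp_iff h (quarter hc hb hz) (quarter hc hb (h2.trans hz))).1 h1

lemma exists_U : ∃ U : Finset (ℤ × ℤ × ℤ), ∀ t z, 1 ≤ ht φ z → ht φ z < φ →
    RotMin N φ t z → z ∈ U := by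
  classical
  refine ⟨insert (zz 0) (fin_box h (max φ (C * ‖Er φ (zz 0)‖ / c))).toFinset,
    fun t z h1 h2 h3 => ?_⟩
  have e0 : ht φ (zz 0) = 1 := by rw [ht_zz h, pow_zero]
  rcases h1.eq_or_lt with e | e
  · exact Finset.mem_insert.2 (.inl (sub_eq_zero.1 (ht_inj h (by rw [ht_sub, e0, e, sub_self]))))
  · refine Finset.mem_insert_of_mem ((Set.Finite.mem_toFinset _).2 ⟨?_, ?_⟩)
    · rw [abs_of_pos (by linarith)]
      exact h2.le.trans (le_max_left _ _)
    · have := lt_of_min h3 (zz_ne h 0) (by rwa [e0, abs_one, abs_of_pos (by linarith)])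
      refine le_trans ?_ (le_max_right _ _)
      rw [le_div_iff₀' hc]
      exact (hb t z).1.trans (this.le.trans (hb t _).2)

include hC

lemma window : ∃ L : ℕ, 0 < L ∧ ∀ t, ∃ j < L, ∃ u, 1 ≤ ht φ u ∧ ht φ u < φ ∧
    RotMin N φ (t + j * ang φ) u := by
  obtain ⟨b1, b2, b3, b4⟩ := phi_bounds h
  have p1 : 1 < φ := by linarith
  obtain ⟨n, hn⟩ := (zz_small h (ε := c / 4 / C) (by positivity)).exists
  refine ⟨n + 1, Nat.succ_pos n, fun t => ?_⟩
  have h0 : FF N φ t (zz n) ≤ c / 4 := (hb t _).2.trans ((le_div_iff₀' hC).1 hn)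
  have hf : {w : ℤ × ℤ × ℤ | w ≠ 0 ∧ |ht φ w| ≤ φ ^ n ∧ FF N φ t w ≤ c / 4}.Finite :=
    (fin_box h (max (φ ^ n) (1 / 4))).subset fun w hw =>
      ⟨hw.2.1.trans (le_max_left _ _), (quarter hc hb hw.2.2).trans (le_max_right _ _)⟩
  obtain ⟨z, hz, m₂⟩ := Set.exists_min_image _ (fun w => |ht φ w|) hf
    ⟨zz n, zz_ne h n, by rw [ht_zz h, abs_of_pos (by positivity)], h0⟩
  have hmin : RotMin N φ t z := ⟨hz.1, fun w h1 h2 => by
    rcases eq_or_ne w 0 with e | e
    · exact .inl e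
    · exact .inr (eq_of_ht h (le_antisymm h1 (m₂ w ⟨e, h1.trans hz.2.1, le_trans h2 hz.2.2⟩)))⟩
  have h1 : 1 ≤ |ht φ z| := by
    have q := quarter hc hb hz.2.2
    have a := (abs_le.1 (ht_approx h z)).1
    have : z.1 ≠ 0 := fun e => hz.1 (eq_of_fst (z := 0) (by simp [Er, errVec, Prod.norm_def]) q e)
    have : (1 : ℝ) ≤ |(z.1 : ℝ)| := by exact_mod_cast Int.one_le_abs this
    nlinarith
  obtain ⟨z', hm', e'⟩ : ∃ z', RotMin N φ t z' ∧ ht φ z' = |ht φ z| := by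
    rcases abs_cases (ht φ z) with e | e
    · exact ⟨z, hmin, e.1.symm⟩
    · exact ⟨-z, rotMin_neg N φ t hmin, by rw [ht_neg, e.1]⟩
  obtain ⟨j, j1, j2⟩ := exists_nat_pow_near h1 p1
  obtain ⟨u, rfl⟩ := (Tk j).surjective z'
  have pj : 0 < φ ^ j := by positivity
  rw [← e', ht_Tk h] at j1 j2
  refine ⟨j, Nat.lt_succ_of_le ((pow_le_pow_iff_right₀ p1).1 ?_), u,
    (le_mul_iff_one_le_right pj).1 j1, lt_of_mul_lt_mul_left (by rwa [← pow_succ]) pj.le,
    (rotMin_Tk h N j t u).1 hm'⟩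
  rw [← ht_Tk h, e'] at j1
  exact j1.trans hz.2.1

open Classical in
lemma count_step : ∀ᶠ n in atTop,
    Nat.count (fun m : ℕ => ∃ z, IsBest N (φ, φ ^ 2) z ∧ z.1.natAbs = m) (pad (n + 1)).toNat =
      Nat.count (fun m : ℕ => ∃ z, IsBest N (φ, φ ^ 2) z ∧ z.1.natAbs = m) (pad n).toNat +
        minCount N φ (n * ang φ) := by
  obtain ⟨b1, b2, b3, b4⟩ := phi_bounds h
  have p1 : 1 < φ := by linarith
  obtain ⟨n₁, hn₁⟩ := eventually_atTop.1 (zz_small h (ε := c / 4 / C) (by positivity))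
  filter_upwards [eventually_ge_atTop (n₁ + 9)] with n hn
  obtain ⟨k, rfl⟩ : ∃ k, n = k + 1 := ⟨n - 1, by omega⟩
  have h0 : ∀ m, k ≤ m → FF N φ 0 (zz m) ≤ c / 4 := fun m hm =>
    (hb 0 _).2.trans ((le_div_iff₀' hC).1 (hn₁ m (by omega)))
  have q0 : ∀ m, k ≤ m → ‖Er φ (zz m)‖ ≤ 1 / 4 := fun m hm => quarter hc hb (h0 m hm)
  have hz1 : ∀ m, |(zz m).1| = pad m := fun m => abs_of_nonneg (pad_nonneg m)
  have hz2 : ∀ m, |ht φ (zz m)| = φ ^ m := fun m => by rw [ht_zz h, abs_of_pos (by positivity)]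
  have pk : 0 < φ ^ (k + 1) := by positivity
  have cm : ∀ z m, k ≤ m → FF N φ 0 z ≤ c / 4 → ((pad m).toNat ≤ z.1.natAbs ↔ φ ^ m ≤ |ht φ z|) :=
    fun z m hm hz => by
      rw [← hz2, ← cmp_iff h (quarter hc hb hz) (q0 m hm), hz1, Int.toNat_le, Int.natCast_natAbs]
  have sm : ∀ u, 1 ≤ ht φ u → RotMin N φ ((k + 1 : ℕ) * ang φ) u →
      RotMin N φ 0 (Tk (k + 1) u) ∧ FF N φ 0 (Tk (k + 1) u) ≤ c / 4 := fun u h1 h2 => by
    have a : RotMin N φ 0 (Tk (k + 1) u) := (rotMin_Tk h N _ 0 u).2 (by rwa [zero_add])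
    refine ⟨a, (lt_of_min a (zz_ne h k) ?_).le.trans (h0 k le_rfl)⟩
    rw [hz2, ht_Tk h, abs_of_pos (by positivity)]
    exact (pow_lt_pow_right₀ p1 (Nat.lt_succ_self k)).trans_le (le_mul_of_one_le_right pk.le h1)
  have hle : (pad (k + 1)).toNat ≤ (pad (k + 1 + 1)).toNat :=
    Int.toNat_le_toNat (pad_le_pad (by omega) (by omega))
  rw [Nat.count_eq_card_filter_range, Nat.count_eq_card_filter_range, Finset.range_eq_Ico,
    Finset.range_eq_Ico,
    ← Finset.Ico_union_Ico_eq_Ico (Nat.zero_le _) hle, Finset.filter_union,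
    Finset.card_union_of_disjoint
      (Finset.disjoint_filter_filter (Finset.Ico_disjoint_Ico_consecutive _ _ _)),
    add_right_inj, ← Set.ncard_coe_finset, minCount]
  symm
  refine Set.ncard_congr (fun u _ => (Tk (k + 1) u).1.natAbs) ?_ ?_ ?_
  · rintro u ⟨h1, h2, h3⟩
    obtain ⟨a1, a2⟩ := sm u h1 h3
    have e : |ht φ (Tk (k + 1) u)| = φ ^ (k + 1) * ht φ u := by
      rw [ht_Tk h, abs_of_pos (by positivity)]
    simp only [Finset.coe_filter, Finset.mem_Ico, Set.mem_ofPred_eq]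
    refine ⟨⟨(cm _ _ (by omega) a2).2 ?_, not_le.1 fun H => ?_⟩, _, (best_iff h hc hb a2).2 a1, rfl⟩
    · rw [e]
      exact le_mul_of_one_le_right pk.le h1
    · have := (cm _ _ (by omega) a2).1 H
      rw [e, pow_succ φ (k + 1)] at this
      exact not_lt.2 this (mul_lt_mul_of_pos_left h2 pk)
  · rintro u v ⟨h1, -, h3⟩ ⟨h4, -, h6⟩ e
    rcases eq_of_abs (quarter hc hb (sm v h4 h6).2) (quarter hc hb (sm u h1 h3).2)
      (Int.natAbs_eq_natAbs_iff.1 e |> abs_eq_abs.2) with e' | e'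
    · exact (Tk _).injective e'
    · rw [← map_neg, EmbeddingLike.apply_eq_iff_eq] at e'
      rw [e', ht_neg] at h1
      linarith
  · intro m hm
    simp only [Finset.coe_filter, Finset.mem_Ico, Set.mem_ofPred_eq] at hm
    obtain ⟨⟨m1, m2⟩, z, hz, rfl⟩ := hm
    have a2 : FF N φ 0 z ≤ c / 4 := by
      refine (lt_of_best hz (zz_ne h k) ?_).le.trans (h0 k le_rfl)
      rw [Int.toNat_le, Int.natCast_natAbs] at m1
      rw [hz1]
      exact (pad_lt_pad (by omega) (Nat.lt_succ_self k)).trans_le m1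
    have a1 := (best_iff h hc hb a2).1 hz
    have j1 := (cm _ _ (by omega) a2).1 m1
    have j2 := not_le.1 fun H => not_le.2 m2 ((cm z (k + 1 + 1) (by omega) a2).2 H)
    obtain ⟨z', hm', e', e''⟩ : ∃ z', RotMin N φ 0 z' ∧ ht φ z' = |ht φ z| ∧
        z'.1.natAbs = z.1.natAbs := by
      rcases abs_cases (ht φ z) with e | e
      · exact ⟨z, a1, e.1.symm, rfl⟩
      · exact ⟨-z, rotMin_neg N φ 0 a1, by rw [ht_neg, e.1], by simp⟩
    obtain ⟨u, rfl⟩ := (Tk (k + 1)).surjective z'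
    rw [← e', ht_Tk h] at j1 j2
    refine ⟨u, ⟨(le_mul_iff_one_le_right pk).1 j1,
      lt_of_mul_lt_mul_left (by rwa [← pow_succ]) pk.le, ?_⟩, e''⟩
    simpa only [zero_add] using (rotMin_Tk h N _ 0 u).1 hm'

end

end Pool.Agent.MP_8d3206_nt

end

section

namespace Pool.Agent.MP_8d3206_nt

open Filter Topology Finset

lemma fract_shift_one (τ x : ℝ) (N : ℕ) :
    |∑ k ∈ range N, Int.fract (k * τ + x - τ) - ∑ k ∈ range N, Int.fract (k * τ + x)| ≤ 1 := by
  have h := Finset.sum_range_sub' (fun k : ℕ => Int.fract (k * τ + x - τ)) N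
  have h2 : ∀ k : ℕ, Int.fract (((k + 1 : ℕ) : ℝ) * τ + x - τ) = Int.fract (k * τ + x) := by
    intro k; congr 1; push_cast; ring
  simp only [h2] at h
  rw [← Finset.sum_sub_distrib, h]
  have a1 := Int.fract_nonneg (((0 : ℕ) : ℝ) * τ + x - τ)
  have a2 := Int.fract_lt_one (((0 : ℕ) : ℝ) * τ + x - τ)
  have a3 := Int.fract_nonneg ((N : ℝ) * τ + x - τ)
  have a4 := Int.fract_lt_one ((N : ℝ) * τ + x - τ)
  rw [abs_le]; constructor <;> linarith

lemma fract_shift (τ : ℝ) (j : ℤ) (N : ℕ) :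
    |∑ k ∈ range N, Int.fract (k * τ - j * τ) - ∑ k ∈ range N, Int.fract (k * τ)| ≤ |(j : ℝ)| := by
  induction j using Int.induction_on with
  | zero => simp
  | succ j ih =>
    have h := fract_shift_one τ (-(j * τ)) N
    have e1 : ∀ k : ℕ, (k : ℝ) * τ + -(j * τ) - τ = k * τ - (((j : ℤ) + 1 : ℤ) : ℝ) * τ := by
      intro k; push_cast; ring
    have e2 : ∀ k : ℕ, (k : ℝ) * τ + -(j * τ) = k * τ - (((j : ℤ) : ℤ) : ℝ) * τ := by
      intro k; push_cast; ring
    simp only [e1] at h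
    simp only [e2] at h
    have hj : |((((j : ℤ) + 1 : ℤ)) : ℝ)| = |(((j : ℤ) : ℤ) : ℝ)| + 1 := by
      push_cast
      rw [abs_of_nonneg (by positivity), abs_of_nonneg (by positivity)]
    rw [hj]
    rw [abs_le] at h ih ⊢
    constructor <;> linarith [h.1, h.2, ih.1, ih.2]
  | pred j ih =>
    have h := fract_shift_one τ ((j + 1) * τ) N
    have e1 : ∀ k : ℕ, (k : ℝ) * τ + (j + 1) * τ - τ = k * τ - ((-(j : ℤ) : ℤ) : ℝ) * τ := by
      intro k; push_cast; ring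
    have e2 : ∀ k : ℕ, (k : ℝ) * τ + (j + 1) * τ = k * τ - ((-(j : ℤ) - 1 : ℤ) : ℝ) * τ := by
      intro k; push_cast; ring
    simp only [e1] at h
    simp only [e2] at h
    have hj : |(((-(j : ℤ) - 1 : ℤ)) : ℝ)| = |((-(j : ℤ) : ℤ) : ℝ)| + 1 := by
      push_cast
      have : (0 : ℝ) ≤ j := by positivity
      rw [abs_of_nonpos (by linarith), abs_of_nonpos (by linarith)]; ring
    rw [hj]
    rw [abs_le] at h ih ⊢
    constructor <;> linarith [h.1, h.2, ih.1, ih.2]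

lemma indicator_eq (y c : ℝ) (h0 : 0 < c) (h1 : c < 1) :
    (if Int.fract y < c then (1 : ℝ) else 0) = c - Int.fract y + Int.fract (y - c) := by
  have a1 := Int.fract_nonneg y
  have a2 := Int.fract_lt_one y
  have hy := Int.fract_add_floor y
  split_ifs with h
  · have : Int.fract (y - c) = Int.fract y - c + 1 := by
      rw [Int.fract_eq_iff]
      refine ⟨by linarith, by linarith, ⌊y⌋ - 1, ?_⟩
      push_cast; linarith
    rw [this]; ring
  · have : Int.fract (y - c) = Int.fract y - c := by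
      rw [Int.fract_eq_iff]
      refine ⟨by linarith, by linarith, ⌊y⌋, ?_⟩
      linarith
    rw [this]; ring

lemma count_cast (p : ℕ → Prop) [DecidablePred p] (N : ℕ) :
    (Nat.count p N : ℝ) = ∑ k ∈ range N, if p k then (1 : ℝ) else 0 := by
  induction N with
  | zero => simp
  | succ N ih => rw [Nat.count_succ, Finset.sum_range_succ, ← ih]; split_ifs <;> simp

lemma count_special (τ : ℝ) (i j : ℤ) (h0 : 0 < j * τ + i) (h1 : j * τ + i < 1) (N : ℕ) :
    |(Nat.count (fun k : ℕ => Int.fract (k * τ) < j * τ + i) N : ℝ) - N * (j * τ + i)| ≤ |(j : ℝ)| := by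
  rw [count_cast]
  simp only [indicator_eq _ _ h0 h1]
  have e : ∀ k : ℕ, Int.fract (k * τ - (j * τ + i)) = Int.fract (k * τ - j * τ) := by
    intro k
    rw [← sub_sub, Int.fract_sub_intCast]
  simp only [e, Finset.sum_add_distrib, Finset.sum_sub_distrib, Finset.sum_const, card_range,
    nsmul_eq_mul]
  have := fract_shift τ j N
  convert this using 2
  ring

theorem equi (τ : ℝ) (hτ : Irrational τ) (c : ℝ) (h0 : 0 < c) (h1 : c < 1) :
    Tendsto (fun N : ℕ => (Nat.count (fun k : ℕ => Int.fract (k * τ) < c) N : ℝ) / N) atTop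
      (𝓝 c) := by
  have hd : Dense (AddSubgroup.closure {τ, (1 : ℝ)} : Set ℝ) :=
    dense_addSubgroupClosure_pair_iff.2 (by simpa using hτ)
  have pick : ∀ a b : ℝ, a < b → ∃ i j : ℤ, a < j * τ + i ∧ j * τ + i < b := by
    intro a b hab
    obtain ⟨x, hx, h2, h3⟩ := hd.exists_between hab
    obtain ⟨m, n, rfl⟩ := AddSubgroup.mem_closure_pair.1 hx
    exact ⟨n, m, by simpa using h2, by simpa using h3⟩
  have lim : ∀ i j : ℤ, 0 < j * τ + i → j * τ + i < 1 →
      Tendsto (fun N : ℕ => (Nat.count (fun k : ℕ => Int.fract (k * τ) < j * τ + i) N : ℝ) / N)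
        atTop (𝓝 (j * τ + i)) := by
    intro i j a1 a2
    rw [← tendsto_sub_nhds_zero_iff]
    have hb : Tendsto (fun N : ℕ => |(j : ℝ)| / N) atTop (𝓝 0) :=
      tendsto_const_div_atTop_nhds_zero_nat _
    refine squeeze_zero_norm' ?_ hb
    filter_upwards [eventually_gt_atTop 0] with N hN
    have hN' : (0 : ℝ) < N := by exact_mod_cast hN
    have := count_special τ i j a1 a2 N
    rw [Real.norm_eq_abs, le_div_iff₀ hN']
    have e : ∀ A B : ℝ, A - N * B = (A / N - B) * N := by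
      intro A B; field_simp
    rwa [e, abs_mul, abs_of_pos hN'] at this
  have mono : ∀ a b : ℝ, a ≤ b → ∀ N : ℕ,
      (Nat.count (fun k : ℕ => Int.fract (k * τ) < a) N : ℝ) / N ≤
        (Nat.count (fun k : ℕ => Int.fract (k * τ) < b) N : ℝ) / N := by
    intro a b hab N
    apply div_le_div_of_nonneg_right _ (Nat.cast_nonneg N)
    exact_mod_cast Nat.count_mono_left (fun k _ hk => lt_of_lt_of_le hk hab)
  rw [tendsto_order]
  constructor
  · intro a ha
    obtain ⟨i, j, b1, b2⟩ := pick (max a 0) c (max_lt ha h0)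
    have := (tendsto_order.1 (lim i j (lt_of_le_of_lt (le_max_right _ _) b1) (b2.trans h1))).1 a
      (lt_of_le_of_lt (le_max_left _ _) b1)
    filter_upwards [this] with N hN
    exact lt_of_lt_of_le hN (mono _ _ b2.le N)
  · intro a ha
    obtain ⟨i, j, b1, b2⟩ := pick c (min a 1) (lt_min ha h1)
    have := (tendsto_order.1 (lim i j (h0.trans b1) (lt_of_lt_of_le b2 (min_le_right _ _)))).2 a
      (lt_of_lt_of_le b2 (min_le_left _ _))
    filter_upwards [this] with N hN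
    exact lt_of_le_of_lt (mono _ _ b1.le N) hN

end Pool.Agent.MP_8d3206_nt

end

section

namespace Pool.Agent.MP_8d3206_nt

open Filter Topology MeasureTheory Set

/-- empirical measure -/
noncomputable def emp (x : ℕ → ℝ) (n : ℕ) : ProbabilityMeasure ℝ :=
  ⟨((n + 1 : ℕ) : ENNReal)⁻¹ • ∑ k ∈ Finset.range (n + 1), Measure.dirac (x k), ⟨by
    simp only [Measure.smul_apply, Measure.coe_finsetSum, Finset.sum_apply, measure_univ,
      Finset.sum_const, Finset.card_range, nsmul_eq_mul, mul_one, smul_eq_mul]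
    exact ENNReal.inv_mul_cancel (by simp) (by simp)⟩⟩

open Classical in
lemma emp_real (x : ℕ → ℝ) (n : ℕ) (s : Set ℝ) :
    (emp x n : Measure ℝ).real s = (Nat.count (fun k => x k ∈ s) (n + 1) : ℝ) / (n + 1 : ℕ) := by
  rw [count_cast, emp, ProbabilityMeasure.coe_mk, measureReal_def]
  simp only [Measure.smul_apply, Measure.coe_finsetSum, Finset.sum_apply, smul_eq_mul,
    Measure.dirac_apply, ENNReal.toReal_mul, ENNReal.toReal_inv, ENNReal.toReal_natCast]
  rw [ENNReal.toReal_sum fun k _ => by by_cases h : x k ∈ s <;> simp [h], inv_mul_eq_div]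
  congr 1
  exact Finset.sum_congr rfl fun k _ => by by_cases h : x k ∈ s <;> simp [h]

open Classical in
theorem equi_null (τ : ℝ) (hτ : Irrational τ) {B : Set ℝ} (hB : volume (frontier B) = 0) :
    Tendsto (fun n : ℕ => (Nat.count (fun k : ℕ => Int.fract (k * τ) ∈ B) n : ℝ) / n) atTop
      (𝓝 ((volume.restrict (Ioo (0 : ℝ) 1)).real B)) := by
  let ν : ProbabilityMeasure ℝ := ⟨volume.restrict (Ioo (0 : ℝ) 1), ⟨by simp⟩⟩
  let μ := emp fun k : ℕ => Int.fract (k * τ)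
  have h1 : ∀ c, Tendsto (fun n => (μ n : Measure ℝ).real (Iio c)) atTop
      (𝓝 ((ν : Measure ℝ).real (Iio c))) := fun c => by
    have e : (ν : Measure ℝ).real (Iio c) = max (min c 1) 0 := by
      rw [ProbabilityMeasure.coe_mk, measureReal_restrict_apply measurableSet_Iio,
        show Iio c ∩ Ioo (0 : ℝ) 1 = Ioo 0 (min c 1) by ext; simp; tauto, Real.volume_real_Ioo,
        sub_zero]
    simp only [μ, emp_real, e, mem_Iio]
    rcases le_or_gt c 0 with h0 | h0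
    · rw [max_eq_right ((min_le_left _ _).trans h0)]
      refine tendsto_const_nhds.congr fun n => ?_
      rw [(Nat.count_iff_forall_not (p := fun k : ℕ => Int.fract (k * τ) < c)).2
        fun k _ => not_lt.2 (h0.trans (Int.fract_nonneg _))]
      simp
    rcases le_or_gt 1 c with h2 | h2
    · rw [min_eq_right h2, max_eq_left zero_le_one]
      refine tendsto_const_nhds.congr fun n => ?_
      rw [(Nat.count_iff_forall (p := fun k : ℕ => Int.fract (k * τ) < c)).2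
        fun k _ => (Int.fract_lt_one _).trans_le h2, div_self (by positivity)]
    · rw [min_eq_left h2.le, max_eq_left h0.le]
      refine ((equi τ hτ c h0 h2).comp (tendsto_add_atTop_nat 1)).congr fun n => ?_
      simp only [Function.comp]
  have h2 : Tendsto μ atTop (𝓝 ν) := by
    refine (isPiSystem_Ico (id : ℝ → ℝ) id).tendsto_probabilityMeasure_of_tendsto_of_mem
      ?_ ?_ ?_
    · rintro _ ⟨a, b, -, rfl⟩
      exact measurableSet_Ico
    · intro u hu x hx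
      obtain ⟨a, b, h3, h4⟩ := mem_nhds_iff_exists_Ioo_subset.1 (hu.mem_nhds hx)
      obtain ⟨a', h5, h6⟩ := exists_between h3.1
      exact ⟨_, ⟨a', b, h6.trans h3.2, rfl⟩, Ico_mem_nhds h6 h3.2,
        (Ico_subset_Ioo_left h5).trans h4⟩
    · rintro _ ⟨a, b, hab, rfl⟩
      have e : ∀ ρ : ProbabilityMeasure ℝ, ((ρ (Ico (id a) (id b)) : NNReal) : ℝ) =
          (ρ : Measure ℝ).real (Iio b) - (ρ : Measure ℝ).real (Iio a) := fun ρ => by
        rw [← measureReal_sdiff (show Iio a ⊆ Iio b from Iio_subset_Iio hab.le) measurableSet_Iio,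
          ← ProbabilityMeasure.measureReal_eq_coe_coeFn]
        congr 1
        ext
        simp
      rw [← NNReal.tendsto_coe]
      simp only [e]
      exact (h1 b).sub (h1 a)
  have h3 := NNReal.tendsto_coe.2 (ProbabilityMeasure.tendsto_measure_of_null_frontier_of_tendsto
    h2 (E := B) (by
      rw [ProbabilityMeasure.null_iff_toMeasure_null]
      exact le_antisymm ((Measure.restrict_apply_le _ _).trans hB.le) zero_le))
  simp only [← ProbabilityMeasure.measureReal_eq_coe_coeFn, μ, emp_real] at h3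
  exact (tendsto_add_atTop_iff_nat 1).1 h3

open Classical in
theorem equi_int {θ : ℝ} (hθ : Irrational (θ / Real.pi)) {p : ℝ → Prop}
    (hp : Function.Periodic p Real.pi) (hB : volume (frontier {t | p t}) = 0) :
    IntervalIntegrable (fun t => if p t then (1 : ℝ) else 0) volume 0 Real.pi ∧
    Tendsto (fun n : ℕ => (∑ k ∈ Finset.range n, if p (k * θ) then (1 : ℝ) else 0) / n) atTop
      (𝓝 ((∫ t in (0 : ℝ)..Real.pi, if p t then (1 : ℝ) else 0) / Real.pi)) := by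
  have π0 := Real.pi_pos
  have hB' : volume (frontier ((Real.pi * ·) ⁻¹' {t | p t})) = 0 := by
    have := (Homeomorph.mulLeft₀ Real.pi π0.ne').preimage_frontier {t | p t}
    simp only [Homeomorph.coe_mulLeft₀] at this
    rw [← this, Real.volume_preimage_mul_left π0.ne', hB, mul_zero]
  have e1 : (fun t => if p t then (1 : ℝ) else 0) = indicator {t | p t} fun _ => 1 := by
    ext t
    simp [indicator]
  refine ⟨?_, ?_⟩
  · rw [e1, intervalIntegrable_iff_integrableOn_Ioc_of_le π0.le]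
    exact (integrable_const (1 : ℝ)).indicator₀ ((nullMeasurableSet_of_null_frontier hB).mono_ac
      Measure.absolutelyContinuous_restrict)
  have e2 : (∫ t in (0 : ℝ)..Real.pi, if p t then (1 : ℝ) else 0) / Real.pi =
      (volume.restrict (Ioo (0 : ℝ) 1)).real ((Real.pi * ·) ⁻¹' {t | p t}) := by
    have := intervalIntegral.mul_integral_comp_mul_left (a := 0) (b := 1)
      (f := fun t => if p t then (1 : ℝ) else 0) (c := Real.pi)
    rw [mul_zero, mul_one] at this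
    rw [← this, mul_div_cancel_left₀ _ π0.ne', intervalIntegral.integral_of_le zero_le_one,
      integral_Ioc_eq_integral_Ioo]
    have e3 : (fun t => if p (Real.pi * t) then (1 : ℝ) else 0) =
        indicator ((Real.pi * ·) ⁻¹' {t | p t}) fun _ => 1 := by
      ext t
      simp [indicator]
    rw [e3, integral_indicator₀ ((nullMeasurableSet_of_null_frontier hB').mono_ac
      Measure.absolutelyContinuous_restrict)]
    simp
  rw [e2]
  refine (equi_null _ hθ hB').congr fun n => ?_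
  rw [count_cast]
  congr 1
  refine Finset.sum_congr rfl fun k _ => ?_
  have e4 : (k : ℝ) * θ = Real.pi * Int.fract (k * (θ / Real.pi)) +
      (⌊k * (θ / Real.pi)⌋ : ℤ) * Real.pi := by
    rw [mul_comm _ Real.pi, ← mul_add, Int.fract_add_floor]
    field_simp
  rw [e4, hp.int_mul]
  simp

lemma countable_iso (f : ℝ → ℝ) : {t | f t = 0 ∧ ∀ᶠ s in 𝓝[≠] t, f s ≠ 0}.Countable := by
  refine Set.Countable.mono (fun t ht => ?_)
    (countable_setOfPred_isolated_right_within (s := {t | f t = 0}))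
  refine ⟨ht.1, ?_⟩
  rw [← eventually_false_iff_eq_bot]
  filter_upwards [ht.2.filter_mono (nhdsWithin_mono t fun s (hs : s ∈ {t | f t = 0} ∩ Ioi t) =>
    (ne_of_gt hs.2 : s ≠ t)), self_mem_nhdsWithin] with s h1 h2
  exact h1 h2.1

end Pool.Agent.MP_8d3206_nt

end

section

namespace Pool.Agent.MP_8d3206_nt

open Filter Topology Real

section
variable {φ : ℝ} (h : φ ^ 3 = φ + 1)
include h

lemma angle : ∃ τ : ℝ, Irrational τ ∧ ∀ s₀ : ℝ, -φ / 2 < s₀ → ∀ n : ℕ,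
    (s₀ < sp φ (n + 1) ↔ Int.fract (((n + 1 : ℕ) : ℝ) * τ) <
      arctan (√(3 * φ ^ 2 - 4) / (2 * s₀ + φ)) / π) := by
  obtain ⟨b1, b2, b3, b4⟩ := phi_bounds h
  set ω := √(3 * φ ^ 2 - 4) / 2 with hω
  have hω0 : 0 < ω := by
    have : 0 < √(3 * φ ^ 2 - 4) := Real.sqrt_pos.2 (by linarith)
    positivity
  have hω2 : ω ^ 2 = (3 * φ ^ 2 - 4) / 4 := by
    rw [hω, div_pow, Real.sq_sqrt (by linarith)]; norm_num
  set ψ : ℂ := ⟨-φ / 2, ω⟩ with hψ
  set r := ‖ψ‖ with hr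
  set θ := Complex.arg ψ with hθ
  have hc : r * cos θ = -φ / 2 := Complex.norm_mul_cos_arg ψ
  have hs : r * sin θ = ω := Complex.norm_mul_sin_arg ψ
  have hr2 : r ^ 2 = φ ^ 2 - 1 := by
    have := Real.sin_sq_add_cos_sq θ
    have e : r ^ 2 = (r * sin θ) ^ 2 + (r * cos θ) ^ 2 := by linear_combination (-r ^ 2) * this
    rw [e, hc, hs, hω2]; ring
  have hr0 : 0 < r := by
    have : 0 ≤ r := norm_nonneg _
    rcases this.lt_or_eq with h1 | h1
    · exact h1
    · rw [← h1] at hr2; linarith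
  have form : ∀ n : ℕ, ω * (Er φ (zz n)).1 = -(r ^ n * sin (n * θ)) := by
    intro n
    induction n using Nat.twoStepInduction with
    | zero => simp [Er, errVec, zz, pad]
    | one => simp [Er, errVec, zz, pad, hs]
    | more n ih1 ih2 =>
      have e1 : (Er φ (zz (n + 2))).1 = -(φ ^ 2 - 1) * (Er φ (zz n)).1 - φ * (Er φ (zz (n + 1))).1 := by
        rw [Er_succ h (n + 1)]
        simp only [stp]
        rw [Er_succ h n]
        simp only [stp]
      have e2 : sin (((n + 2 : ℕ) : ℝ) * θ) =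
          2 * cos θ * sin (((n + 1 : ℕ) : ℝ) * θ) - sin (n * θ) := by
        have a1 : ((n + 2 : ℕ) : ℝ) * θ = ((n + 1 : ℕ) : ℝ) * θ + θ := by push_cast; ring
        have a2 : (n : ℝ) * θ = ((n + 1 : ℕ) : ℝ) * θ - θ := by push_cast; ring
        rw [a1, a2, sin_add, sin_sub]; ring
      rw [e1, e2]
      linear_combination (-(φ ^ 2 - 1)) * ih1 - φ * ih2 - (r ^ n * sin (n * θ)) * hr2 +
        (2 * r ^ (n + 1) * sin (((n + 1 : ℕ) : ℝ) * θ)) * hc
  have hsin : ∀ n : ℕ, sin (((n + 1 : ℕ) : ℝ) * θ) ≠ 0 := by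
    intro n hh
    have := form (n + 1)
    rw [hh, mul_zero, neg_zero] at this
    exact mul_ne_zero hω0.ne' (Er_ne h n) this
  refine ⟨θ / π, ?_, fun s₀ hs₀ n => ?_⟩
  · rintro ⟨q, hq⟩
    apply hsin (q.den - 1)
    rw [Nat.sub_add_cancel q.pos]
    have : (q.den : ℝ) * θ = q.num * π := by
      have e : θ = q * π := by rw [hq]; field_simp
      rw [e, ← mul_assoc]
      congr 1
      exact_mod_cast Rat.den_mul_eq_num q
    rw [this]; exact sin_int_mul_pi _
  · set N : ℝ := ((n + 1 : ℕ) : ℝ) with hN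
    set y := π * Int.fract (N * (θ / π)) with hy
    set k := ⌊N * (θ / π)⌋ with hk
    have hy0 : 0 ≤ y := mul_nonneg pi_pos.le (Int.fract_nonneg _)
    have hy1 : y < π := by
      have := Int.fract_lt_one (N * (θ / π))
      calc y < π * 1 := mul_lt_mul_of_pos_left this pi_pos
        _ = π := mul_one _
    have e : N * θ = y + k * π := by
      have := Int.fract_add_floor (N * (θ / π))
      have e2 : N * θ = π * (N * (θ / π)) := by field_simp
      rw [e2, ← this, hy]; ring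
    have es : sin (N * θ) = (-1) ^ k * sin y := by rw [e, sin_add_int_mul_pi]
    have ec : cos (N * θ) = (-1) ^ k * cos y := by rw [e, cos_add_int_mul_pi]
    have hk0 : ((-1 : ℝ)) ^ k ≠ 0 := zpow_ne_zero _ (by norm_num)
    have hsy : 0 < sin y := by
      rcases (sin_nonneg_of_nonneg_of_le_pi hy0 hy1.le).lt_or_eq with h1 | h1
      · exact h1
      · exfalso; apply hsin n; rw [es, ← h1, mul_zero]
    have hsp : sp φ (n + 1) = -φ / 2 + ω * cos y / sin y := by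
      have f1 := form (n + 1)
      have f2 := form (n + 1 + 1)
      have a1 : ((n + 1 + 1 : ℕ) : ℝ) * θ = N * θ + θ := by rw [hN]; push_cast; ring
      rw [a1, sin_add, es, ec] at f2
      rw [es] at f1
      have g1 : (Er φ (zz (n + 1))).1 = -(r ^ (n + 1) * ((-1) ^ k * sin y)) / ω := by
        rw [← f1]; field_simp
      have g2 : (Er φ (zz (n + 1 + 1))).1 =
          -(r ^ (n + 1) * ((-1) ^ k * (sin y * (-φ / 2) + cos y * ω))) / ω := by
        rw [eq_div_iff hω0.ne', mul_comm, f2]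
        linear_combination (-(r ^ (n + 1) * (-1) ^ k * sin y)) * hc -
          (r ^ (n + 1) * (-1) ^ k * cos y) * hs
      rw [sp, g1, g2]
      field_simp
    set δ := arctan (√(3 * φ ^ 2 - 4) / (2 * s₀ + φ)) with hδ
    have ha : 0 < 2 * s₀ + φ := by linarith
    have hδ0 : 0 < δ := arctan_pos.2 (by
      have : 0 < √(3 * φ ^ 2 - 4) := Real.sqrt_pos.2 (by linarith)
      positivity)
    have hδ1 : δ < π / 2 := arctan_lt_pi_div_two _
    have hcδ : 0 < cos δ := cos_arctan_pos _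
    have htan : sin δ * (s₀ + φ / 2) = ω * cos δ := by
      have t := tan_arctan (√(3 * φ ^ 2 - 4) / (2 * s₀ + φ))
      rw [← hδ, tan_eq_sin_div_cos] at t
      field_simp at t
      rw [hω]; linarith
    have hsδ : 0 < sin δ := sin_pos_of_pos_of_lt_pi hδ0 (by linarith [pi_pos])
    have step1 : s₀ < sp φ (n + 1) ↔ 0 < sin (δ - y) := by
      rw [hsp, sin_sub, ← sub_lt_iff_lt_add', lt_div_iff₀ hsy]
      have e3 : ω * (sin δ * cos y - cos δ * sin y) =
          sin δ * (ω * cos y - (s₀ - -φ / 2) * sin y) := by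
        linear_combination (sin y) * htan
      rw [← mul_pos_iff_of_pos_left hω0, e3, mul_pos_iff_of_pos_left hsδ, sub_pos]
    rw [step1, lt_div_iff₀ pi_pos, mul_comm _ π, ← hy]
    constructor
    · intro h1
      by_contra h2
      push Not at h2
      have := sin_nonneg_of_nonneg_of_le_pi (x := y - δ) (by linarith) (by linarith)
      rw [← neg_sub, sin_neg] at this
      linarith
    · intro h1
      exact sin_pos_of_pos_of_lt_pi (by linarith) (by linarith [pi_pos])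

lemma log_pad : Tendsto (fun n : ℕ => log (pad (n + 1)) / n) atTop (𝓝 (log φ)) := by
  obtain ⟨b1, b2, b3, b4⟩ := phi_bounds h
  have hφ : 0 < φ := by linarith
  have hF : 0 < 3 * φ ^ 2 - 1 := by linarith
  have t1 : Tendsto (fun n : ℕ => (pad n : ℝ) / φ ^ n) atTop (𝓝 (1 / (3 * φ ^ 2 - 1))) := by
    rw [← tendsto_sub_nhds_zero_iff]
    have t0 : Tendsto (fun n : ℕ => (φ⁻¹) ^ n) atTop (𝓝 0) :=
      tendsto_pow_atTop_nhds_zero_of_lt_one (by positivity) (inv_lt_one_of_one_lt₀ (by linarith))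
    refine squeeze_zero_norm' ?_ t0
    filter_upwards [small h 1 one_pos] with n hn
    have a := Af_eq (φ := φ) (zz n)
    rw [Af_zz h] at a
    have e1 : |(Er φ (zz n)).1| ≤ 1 := by
      apply abs_le_one_iff_mul_self_le_one.2; nlinarith [sq_nonneg (Er φ (zz n)).2]
    have e2 : |(Er φ (zz n)).2| ≤ 1 := by
      apply abs_le_one_iff_mul_self_le_one.2; nlinarith [sq_nonneg (Er φ (zz n)).1]
    have hp : 0 < φ ^ n := by positivity
    have e : (pad n : ℝ) / φ ^ n - 1 / (3 * φ ^ 2 - 1) =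
        ((Er φ (zz n)).2 + φ * (Er φ (zz n)).1) / (3 * φ ^ 2 - 1) * (φ⁻¹) ^ n := by
      rw [inv_pow]
      field_simp
      simp only [zz] at a ⊢
      linarith
    rw [e, Real.norm_eq_abs, abs_mul, abs_of_pos (by positivity : 0 < (φ⁻¹) ^ n)]
    apply mul_le_of_le_one_left (by positivity)
    rw [abs_div, abs_of_pos hF, div_le_one hF, abs_le]
    rw [abs_le] at e1 e2
    constructor <;> nlinarith [e1.1, e1.2, e2.1, e2.2]
  have t2 : Tendsto (fun n : ℕ => log ((pad (n + 1) : ℝ) / φ ^ (n + 1))) atTop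
      (𝓝 (log (1 / (3 * φ ^ 2 - 1)))) :=
    (t1.comp (tendsto_add_atTop_nat 1)).log (by positivity)
  have t3 : Tendsto (fun n : ℕ => (log ((pad (n + 1) : ℝ) / φ ^ (n + 1)) + log φ) / n + log φ) atTop
      (𝓝 (0 + log φ)) :=
    ((t2.add_const (log φ)).div_atTop tendsto_natCast_atTop_atTop).add_const _
  rw [zero_add] at t3
  refine t3.congr' ?_
  filter_upwards [eventually_ge_atTop 3] with n hn
  have hp : (0 : ℝ) < pad (n + 1) := by
    have := pad_pos (n - 3)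
    rw [show n - 3 + 4 = n + 1 by omega] at this
    exact_mod_cast this
  have hn' : (n : ℝ) ≠ 0 := by
    have : (3 : ℝ) ≤ n := by exact_mod_cast hn
    linarith
  rw [log_div hp.ne' (by positivity), log_pow]
  field_simp
  push_cast; ring

end

lemma count_gap (p : ℕ → Prop) [DecidablePred p] (a b : ℕ) (hab : a < b)
    (hn : ∀ t, a < t → t < b → ¬ p t) : Nat.count p b = Nat.count p (a + 1) := by
  induction b, hab using Nat.le_induction with
  | base => rfl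
  | succ b hb ih =>
    rw [Nat.count_succ, if_neg (hn b hb (by omega)), add_zero]
    exact ih (fun t h1 h2 => hn t h1 (by omega))

lemma locate (N t : ℕ) (hN : 8 ≤ N) (ht : pad N ≤ t) : ∃ n, N ≤ n ∧ pad n ≤ t ∧ t < pad (n + 1) := by
  have hex : ∃ n, (t : ℤ) < pad (N + n + 1) := by
    have : ∀ k : ℕ, (k : ℤ) ≤ pad (N + k) := by
      intro k
      induction k with
      | zero => exact pad_nonneg _
      | succ k ih =>
        have := pad_lt_pad (a := N + k) (b := N + (k + 1)) (by omega) (by omega)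
        push_cast; omega
    exact ⟨t, by have := this (t + 1); push_cast at this; rw [add_assoc]; omega⟩
  classical
  refine ⟨N + Nat.find hex, by omega, ?_, Nat.find_spec hex⟩
  rcases Nat.eq_zero_or_pos (Nat.find hex) with h0 | h0
  · rw [h0]; exact ht
  · have := Nat.find_min hex (show Nat.find hex - 1 < Nat.find hex by omega)
    rw [show N + (Nat.find hex - 1) + 1 = N + Nat.find hex by omega] at this
    omega

theorem tendsto_main {φ : ℝ} (h : φ ^ 3 = φ + 1) {nrm : ℝ × ℝ → ℝ} (H : NormOK nrm) {s₀ : ℝ}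
    (HA : ArcOK φ nrm s₀) :
    Tendsto (fun ν : ℕ => (bestDen nrm (φ, φ ^ 2) ν : ℝ) ^ ((1 : ℝ) / ν)) atTop
      (𝓝 (φ ^ (π / arctan (√(3 * φ ^ 2 - 4) / (2 * s₀ + φ))))) := by
  classical
  obtain ⟨b1, b2, b3, b4⟩ := phi_bounds h
  obtain ⟨τ, hτ, hang⟩ := angle h
  have hang' := hang s₀ HA.pos
  set δ := arctan (√(3 * φ ^ 2 - 4) / (2 * s₀ + φ)) with hδ
  have ha : 0 < 2 * s₀ + φ := by linarith [HA.pos]
  have hδ0 : 0 < δ := arctan_pos.2 (by
    have : 0 < √(3 * φ ^ 2 - 4) := Real.sqrt_pos.2 (by linarith)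
    positivity)
  have hδ1 : δ < π / 2 := arctan_lt_pi_div_two _
  have hc0 : 0 < δ / π := div_pos hδ0 pi_pos
  have hc1 : δ / π < 1 := by rw [div_lt_one pi_pos]; linarith [pi_pos]
  have heq := equi τ hτ _ hc0 hc1
  set R : ℕ → Prop := fun k : ℕ => Int.fract (k * τ) < δ / π with hR
  set P : ℕ → Prop := fun m : ℕ => ∃ z, IsBest nrm (φ, φ ^ 2) z ∧ z.1.natAbs = m with hP
  obtain ⟨m₁, hm₁⟩ := eventually_atTop.1 (small h (1 / 16) (by norm_num))
  set m₀ := max m₁ 8 with hm₀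
  have hsm : ∀ m ≥ m₀, ∀ n ≥ m, (Er φ (zz n)).1 ^ 2 + (Er φ (zz n)).2 ^ 2 < 1 / 16 :=
    fun m hm n hn => hm₁ n (by omega)
  set X : ℕ → ℕ := fun n => (pad n).toNat with hX
  have hXc : ∀ n, (X n : ℤ) = pad n := fun n => Int.toNat_of_nonneg (pad_nonneg n)
  have F1 : ∀ n ≥ m₀ + 4, ∀ t : ℕ, P t → X (n + 1) ≤ t → t < X (n + 2) → t = X (n + 1) ∧ R n := by
    rintro n hn t ⟨z, hz, rfl⟩ h1 h2
    obtain ⟨m, rfl⟩ : ∃ m, n = m + 3 := ⟨n - 3, by omega⟩
    have a1 := hXc (m + 3 + 1)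
    have a2 := hXc (m + 3 + 2)
    have a3 := Int.natCast_natAbs z.1
    obtain ⟨c1, c2⟩ := best_imp h H HA m (by omega) (hsm m (by omega)) z hz
      (by rw [show m + 4 = m + 3 + 1 by ring]; omega) (by rw [show m + 5 = m + 3 + 2 by ring]; omega)
    refine ⟨by rw [show m + 4 = m + 3 + 1 by ring] at c1; omega, ?_⟩
    exact (hang' (m + 2)).1 c2
  have F2 : ∀ n ≥ m₀ + 4, R n → P (X (n + 1)) := by
    intro n hn hRn
    obtain ⟨m, rfl⟩ : ∃ m, n = m + 4 := ⟨n - 4, by omega⟩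
    refine ⟨_, imp_best h H HA m (hsm m (by omega)) ((hang' (m + 3)).2 hRn), ?_⟩
    have a1 := hXc (m + 4 + 1)
    have a2 := pad_nonneg (m + 5)
    simp only [zz]
    rw [show m + 5 = m + 4 + 1 by ring] at a2 ⊢
    omega
  have hXlt : ∀ a b, 8 ≤ a → a < b → X a < X b := by
    intro a b h1 h2
    have := pad_lt_pad h1 h2
    have a1 := hXc a
    have a2 := hXc b
    omega
  obtain ⟨K, hK⟩ : ∃ K : ℤ, ∀ n ≥ m₀ + 4, (Nat.count P (X (n + 1)) : ℤ) = Nat.count R n + K := by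
    refine ⟨(Nat.count P (X (m₀ + 4 + 1)) : ℤ) - Nat.count R (m₀ + 4), fun n hn => ?_⟩
    induction n, hn using Nat.le_induction with
    | base => ring
    | succ n hn ih =>
      have hlt := hXlt (n + 1) (n + 2) (by omega) (by omega)
      rw [count_gap P (X (n + 1)) (X (n + 1 + 1)) hlt
        (fun t h1 h2 hPt => by have := (F1 n hn t hPt h1.le h2).1; omega),
        Nat.count_succ, Nat.count_succ]
      have : P (X (n + 1)) ↔ R n := ⟨fun hh => (F1 n hn _ hh le_rfl hlt).2, F2 n hn⟩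
      simp only [this]
      push_cast
      rw [ih]; ring
  have hRinf : Tendsto (fun n : ℕ => (Nat.count R n : ℝ)) atTop atTop := by
    have := heq.pos_mul_atTop hc0 tendsto_natCast_atTop_atTop
    refine this.congr' ?_
    filter_upwards [eventually_gt_atTop 0] with n hn
    have : (n : ℝ) ≠ 0 := by exact_mod_cast hn.ne'
    exact div_mul_cancel₀ _ this
  have hPinf : (Set.ofPred P).Infinite := by
    intro hfin
    obtain ⟨n, hn1, hn2⟩ := ((tendsto_atTop.1 hRinf (hfin.toFinset.card - K + 1 : ℝ)).and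
      (eventually_ge_atTop (m₀ + 4))).exists
    have a1 := hK n hn2
    have a2 := Nat.count_le_card hfin (X (n + 1))
    have a3 : (hfin.toFinset.card - K + 1 : ℤ) ≤ Nat.count R n := by exact_mod_cast hn1
    omega
  have hM : Tendsto (fun ν : ℕ => Nat.nth P (ν - 1)) atTop atTop :=
    (Nat.nth_strictMono hPinf).tendsto_atTop.comp (tendsto_sub_atTop_nat 1)
  have hg : ∀ ν : ℕ, ∃ g : ℕ, X (m₀ + 5) ≤ Nat.nth P (ν - 1) →
      m₀ + 4 ≤ g ∧ Nat.nth P (ν - 1) = X (g + 1) := by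
    intro ν
    by_cases hν : X (m₀ + 5) ≤ Nat.nth P (ν - 1)
    · obtain ⟨n, h1, h2, h3⟩ := locate (m₀ + 5) (Nat.nth P (ν - 1)) (by omega)
        (by have := hXc (m₀ + 5); omega)
      obtain ⟨g, rfl⟩ : ∃ g, n = g + 1 := ⟨n - 1, by omega⟩
      refine ⟨g, fun _ => ⟨by omega, (F1 g (by omega) _ (Nat.nth_mem_of_infinite hPinf _) ?_ ?_).1⟩⟩
      · have := hXc (g + 1); omega
      · have := hXc (g + 2); rw [show g + 1 + 1 = g + 2 by ring] at h3; omega
    · exact ⟨0, fun hh => absurd hh hν⟩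
  choose g hg using hg
  have hev : ∀ᶠ ν in atTop, m₀ + 4 ≤ g ν ∧ Nat.nth P (ν - 1) = X (g ν + 1) := by
    filter_upwards [tendsto_atTop.1 hM (X (m₀ + 5))] with ν hν using hg ν hν
  have hgt : Tendsto g atTop atTop := by
    rw [tendsto_atTop]
    intro b
    filter_upwards [hev, tendsto_atTop.1 hM (X (b + 1))] with ν ⟨h1, h2⟩ h3
    by_contra hn
    have := hXlt (g ν + 1) (b + 1) (by omega) (by omega)
    omega
  have t1 : Tendsto (fun ν : ℕ => (ν : ℝ) / g ν) atTop (𝓝 (δ / π)) := by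
    have u1 := heq.comp hgt
    have u2 : Tendsto (fun ν : ℕ => ((K : ℝ) + 1) / g ν) atTop (𝓝 0) :=
      tendsto_const_nhds.div_atTop (tendsto_natCast_atTop_atTop.comp hgt)
    have u3 := u1.add u2
    rw [add_zero] at u3
    refine u3.congr' ?_
    filter_upwards [hev, eventually_ge_atTop 1] with ν ⟨h1, h2⟩ h3
    have a1 := hK (g ν) h1
    rw [← h2, Nat.count_nth_of_infinite hPinf] at a1
    have a2 : (ν : ℤ) = Nat.count R (g ν) + (K + 1) := by omega
    have a3 : (ν : ℝ) = Nat.count R (g ν) + (K + 1) := by exact_mod_cast a2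
    simp only [Function.comp]
    rw [← add_div, ← a3]
  have t2 := ((log_pad h).comp hgt).div t1 hc0.ne'
  have t3 := (Real.continuous_exp.tendsto _).comp t2
  have e : φ ^ (π / δ) = exp (log φ / (δ / π)) := by
    rw [Real.rpow_def_of_pos (by linarith)]
    congr 1
    field_simp
  rw [e]
  refine t3.congr' ?_
  filter_upwards [hev] with ν ⟨h1, h2⟩
  have hp : (0 : ℝ) < pad (g ν + 1) := by
    have := pad_pos (g ν - 3)
    rw [show g ν - 3 + 4 = g ν + 1 by omega] at this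
    exact_mod_cast this
  have hg0 : (g ν : ℝ) ≠ 0 := by
    have : g ν ≠ 0 := by omega
    exact_mod_cast this
  have e2 : (bestDen nrm (φ, φ ^ 2) ν : ℝ) = pad (g ν + 1) := by
    have : bestDen nrm (φ, φ ^ 2) ν = X (g ν + 1) := h2
    rw [this]
    exact_mod_cast hXc (g ν + 1)
  simp only [Function.comp, Pi.div_apply]
  rw [e2, Real.rpow_def_of_pos hp]
  congr 1
  field_simp

lemma value_ne {φ : ℝ} (h : φ ^ 3 = φ + 1) (x : ℝ) (hx : 0 < x) : φ ^ (π / arctan x) ≠ φ := by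
  obtain ⟨b1, b2, b3, b4⟩ := phi_bounds h
  have h0 : 0 < arctan x := arctan_pos.2 hx
  have h1 : arctan x < π / 2 := arctan_lt_pi_div_two _
  have h2 : 1 < π / arctan x := by rw [lt_div_iff₀ h0]; linarith [pi_pos]
  have := Real.rpow_lt_rpow_of_exponent_lt (by linarith : 1 < φ) h2
  rw [Real.rpow_one] at this
  exact this.ne'

theorem final (φ : ℝ) (h : φ ^ 3 = φ + 1) :
    growth (fun v => max |v.1| |v.2|) (φ, φ ^ 2) =
      φ ^ (π / arctan (√(3 * φ ^ 2 - 4) / (3 * φ - 2 * φ ^ 2))) ∧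
    growth (fun v => √(v.1 ^ 2 + v.2 ^ 2)) (φ, φ ^ 2) =
      φ ^ (π / arctan (√(3 * φ ^ 2 - 4) /
        (φ + 2 * (√(3 * φ ^ 2 + φ - 2) - (φ ^ 2 + φ + 2)) / (2 * φ ^ 2 + 3 * φ)))) ∧
    growth (fun v => max |v.1| |v.2|) (φ, φ ^ 2) ≠ φ ∧
    growth (fun v => √(v.1 ^ 2 + v.2 ^ 2)) (φ, φ ^ 2) ≠ φ := by
  obtain ⟨b1, b2, b3, b4⟩ := phi_bounds h
  have hs : 0 < √(3 * φ ^ 2 - 4) := Real.sqrt_pos.2 (by linarith)
  have r1 := (tendsto_main h sup_normOK (sup_arc h)).liminf_eq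
  have r2 := (tendsto_main h euc_normOK (euc_arc h)).liminf_eq
  have p1 := (sup_arc h).pos
  have p2 := (euc_arc h).pos
  have v1 := value_ne h (√(3 * φ ^ 2 - 4) / (2 * (φ - φ ^ 2) + φ)) (div_pos hs (by linarith))
  have v2 := value_ne h (√(3 * φ ^ 2 - 4) / (2 * ((√(3 * φ ^ 2 + φ - 2) - (φ ^ 2 + φ + 2)) /
    (2 * φ ^ 2 + 3 * φ)) + φ)) (div_pos hs (by linarith))
  refine ⟨?_, ?_, ?_, ?_⟩
  · rw [growth, r1]; congr 4; ring
  · rw [growth, r2]; congr 4; ring
  · rw [growth, r1]; exact v1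
  · rw [growth, r2]; exact v2

end Pool.Agent.MP_8d3206_nt

end

section

namespace Pool.Agent.MP_8d3206_nt

open Real Filter Topology MeasureTheory

variable {φ : ℝ} {N : Seminorm ℝ (ℝ × ℝ)}

open Classical in
lemma minCount_eq {U : Finset (ℤ × ℤ × ℤ)}
    (hU : ∀ t z, 1 ≤ ht φ z → ht φ z < φ → RotMin N φ t z → z ∈ U) (t : ℝ) :
    minCount N φ t = ((U.filter fun u => 1 ≤ ht φ u ∧ ht φ u < φ).filter (RotMin N φ t)).card := by
  rw [minCount, ← Set.ncard_coe_finset]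
  congr 1
  ext z
  simp only [Set.mem_ofPred_eq, Finset.coe_filter, Finset.mem_filter]
  exact ⟨fun h => ⟨⟨hU t z h.1 h.2.1 h.2.2, h.1, h.2.1⟩, h.2.2⟩, fun h => ⟨h.1.2.1, h.1.2.2, h.2⟩⟩

section
variable (h : φ ^ 3 = φ + 1)
include h

theorem growth_gen (hN : ∀ v, N v = 0 → v = 0) :
    0 < limsup
      (fun n : ℕ => (∑ k ∈ Finset.range n, (minCount N φ (k * ang φ) : ℝ)) / n) atTop ∧
    growth N (φ, φ ^ 2) = φ ^ (1 / limsup
      (fun n : ℕ => (∑ k ∈ Finset.range n, (minCount N φ (k * ang φ) : ℝ)) / n) atTop) := by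
  classical
  obtain ⟨b1, b2, b3, b4⟩ := phi_bounds h
  obtain ⟨c, C, hc, hC, hb⟩ := FF_bounds N h hN
  obtain ⟨U, hU⟩ := exists_U h hc hb
  obtain ⟨L, hL, hw⟩ := window h hc hC hb
  have hB : ∀ t, minCount N φ t ≤ U.card := fun t => by
    rw [minCount_eq hU]
    exact (Finset.card_filter_le _ _).trans (Finset.card_filter_le _ _)
  have hS : ∀ m : ℕ, (m : ℝ) ≤ ∑ k ∈ Finset.range (m * L), (minCount N φ (k * ang φ) : ℝ) := by
    intro m
    induction m with
    | zero => simp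
    | succ m ih =>
      obtain ⟨j, hj, u, h1, h2, h3⟩ := hw ((m * L : ℕ) * ang φ)
      have h4 : 1 ≤ minCount N φ ((m * L + j : ℕ) * ang φ) := by
        rw [minCount_eq hU, Nat.cast_add, add_mul]
        exact Finset.card_pos.2 ⟨u, Finset.mem_filter.2
          ⟨Finset.mem_filter.2 ⟨hU _ u h1 h2 h3, h1, h2⟩, h3⟩⟩
      have h5 := Finset.single_le_sum (f := fun j => (minCount N φ ((m * L + j : ℕ) * ang φ) : ℝ))
        (fun _ _ => Nat.cast_nonneg _) (Finset.mem_range.2 hj)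
      have h6 : (1 : ℝ) ≤ minCount N φ ((m * L + j : ℕ) * ang φ) := by exact_mod_cast h4
      rw [Nat.succ_mul, Finset.sum_range_add]
      push_cast at h5 h6 ⊢
      linarith
  have L0 : (0 : ℝ) < L := by exact_mod_cast hL
  have hκ : 0 < limsup
      (fun n : ℕ => (∑ k ∈ Finset.range n, (minCount N φ (k * ang φ) : ℝ)) / n) atTop := by
    refine (one_div_pos.2 L0).trans_le (le_limsup_of_frequently_le ?_
      (isBoundedUnder_of ⟨U.card, fun n => ?_⟩))
    · refine (tendsto_id.atTop_mul_const' hL).frequently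
        ((eventually_gt_atTop 0).mono fun m hm => ?_).frequently
      have m0 : (0 : ℝ) < m := by exact_mod_cast hm
      have := hS m
      rw [id, div_le_div_iff₀ L0 (by positivity)]
      push_cast
      nlinarith
    · refine div_le_of_le_mul₀ (Nat.cast_nonneg n) (Nat.cast_nonneg _) ?_
      refine (Finset.sum_le_card_nsmul _ _ (U.card : ℝ) fun k _ => by exact_mod_cast hB _).trans ?_
      simp [mul_comm]
  have hm : ∀ n, 8 ≤ n → (pad n).toNat < (pad (n + 1)).toNat := fun n hn => by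
    have := pad_lt_pad hn (Nat.lt_add_one n)
    have := pad_nonneg n
    omega
  have := liminf_nth (fun m : ℕ => ∃ z, IsBest N (φ, φ ^ 2) z ∧ z.1.natAbs = m)
    (fun n => (pad n).toNat) (fun k => minCount N φ (k * ang φ)) U.card
    (log_pos (by linarith : 1 < φ)) ((log_pad h).congr fun n => by
      rw [← Int.cast_natCast (pad _).toNat, Int.toNat_of_nonneg (pad_nonneg _)])
    ((tendsto_add_atTop_iff_nat 8).1 (strictMono_nat_of_lt_succ fun n => by
      rw [Nat.add_right_comm]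
      exact hm _ (by omega)).tendsto_atTop)
    ((eventually_ge_atTop 8).mono fun n hn => (hm n hn).le) (count_step h hc hC hb)
    (fun _ => hB _) hκ
  rw [rpow_def_of_pos (by linarith), mul_one_div, ← this]
  exact ⟨hκ, rfl⟩

lemma ang_irr : Irrational (ang φ / π) := by
  obtain ⟨b1, b2, b3, b4⟩ := phi_bounds h
  rintro ⟨q, hq⟩
  let M : Seminorm ℝ (ℝ × ℝ) := (normSeminorm ℝ ℝ).comp (LinearMap.fst ℝ ℝ ℝ)
  have e1 : (0 : ℝ) + q.den * ang φ = 0 + q.num * π := by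
    rw [eq_div_iff pi_ne_zero] at hq
    rw [← hq, ← mul_assoc]
    norm_cast
    rw [Rat.den_mul_eq_num]
    norm_cast
  have e2 : Function.Periodic (fun t => FF M φ t (zz 0)) π := fun t => by
    simp only [FF, rot_add_pi, map_neg_eq_map]
  have e3 : ∀ n, Tk n (zz 0) = zz n := fun n => by
    induction n with
    | zero => rfl
    | succ n ih =>
      rw [Tk_succ, ih, TE_apply]
      exact Prod.ext rfl (Prod.ext rfl (add_comm _ _))
  have e4 := FF_Tk h M q.den 0 (zz 0)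
  have e5 : FF M φ (0 + q.num * π) (zz 0) = FF M φ 0 (zz 0) := e2.int_mul q.num 0
  rw [e1, e5, e3, FF_zero, FF_zero] at e4
  obtain ⟨n, hn⟩ := Nat.exists_eq_succ_of_ne_zero q.den_ne_zero
  rw [hn] at e4
  have e6 : M (errVec (φ, φ ^ 2) (zz 0)) = 0 := by simp [M, errVec, zz, pad]
  rw [e6, eq_comm, mul_eq_zero] at e4
  rcases e4 with e4 | e4
  · exact (pow_pos (Real.sqrt_pos.2 (by linarith)) _).ne' e4
  · exact Er_ne h n (by simpa [M, Er] using e4)

theorem mean_int (hN : ∀ v, N v = 0 → v = 0)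
    (hF : ∀ z, volume (frontier {t | RotMin N φ t z}) = 0) :
    limsup (fun n : ℕ => (∑ k ∈ Finset.range n, (minCount N φ (k * ang φ) : ℝ)) / n) atTop =
      (∫ t in (0 : ℝ)..π, (minCount N φ t : ℝ)) / π := by
  classical
  obtain ⟨c, C, hc, hC, hb⟩ := FF_bounds N h hN
  obtain ⟨U, hU⟩ := exists_U h hc hb
  have H := fun z => equi_int (ang_irr h) (p := fun t => RotMin N φ t z)
    (fun t => propext (rotMin_add_pi N φ t z)) (hF z)
  have e : ∀ t, (minCount N φ t : ℝ) = ∑ u ∈ U.filter fun u => 1 ≤ ht φ u ∧ ht φ u < φ,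
      if RotMin N φ t u then (1 : ℝ) else 0 := fun t => by
    rw [minCount_eq hU, Finset.sum_boole]
  apply Tendsto.limsup_eq
  simp only [e]
  rw [intervalIntegral.integral_finsetSum fun u _ => (H u).1, Finset.sum_div]
  refine (tendsto_finsetSum _ fun u _ => (H u).2).congr fun n => ?_
  rw [← Finset.sum_div, Finset.sum_comm]

lemma line_count {v : ℝ × ℝ} (hv : v ≠ 0) (l : ℝ × ℝ) :
    {t | ∃ c : ℝ, rot φ t v = c • l}.Countable := by
  obtain ⟨b1, b2, b3, b4⟩ := phi_bounds h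
  rcases {t | ∃ c : ℝ, rot φ t v = c • l}.eq_empty_or_nonempty with e | ⟨s, a, ha⟩
  · rw [e]
    exact Set.countable_empty
  refine (Set.countable_range fun n : ℤ => n * π + s).mono ?_
  rintro t ⟨b, hb⟩
  have e1 : (rot φ s v).1 * (rot φ (t - s) (rot φ s v)).2 -
      (rot φ s v).2 * (rot φ (t - s) (rot φ s v)).1 = 0 := by
    rw [← rot_add h, sub_add_cancel, ha, hb]
    simp only [Prod.smul_fst, Prod.smul_snd, smul_eq_mul]
    ring
  have e2 : rot φ s v ≠ 0 := fun e => hv (by simpa [e] using norm_le_rot h s v)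
  generalize rot φ s v = x at e1 e2
  have e3 : sin (t - s) / √(3 * φ ^ 2 - 4) *
      ((2 * x.2 - φ * x.1) ^ 2 + (3 * φ ^ 2 - 4) * x.1 ^ 2) = 0 := by
    simp only [rot, Prod.fst_add, Prod.snd_add, Prod.smul_fst, Prod.smul_snd, smul_eq_mul] at e1
    linear_combination (-2) * e1
  have e4 : (2 * x.2 - φ * x.1) ^ 2 + (3 * φ ^ 2 - 4) * x.1 ^ 2 ≠ 0 := fun e => by
    have h1 : x.1 = 0 := pow_eq_zero_iff two_ne_zero |>.1 (le_antisymm
      (by nlinarith [sq_nonneg (2 * x.2 - φ * x.1), sq_nonneg x.1]) (sq_nonneg _))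
    rw [h1] at e
    exact e2 (Prod.ext h1 (by simpa using e))
  obtain ⟨n, hn⟩ := sin_eq_zero_iff.1 ((div_eq_zero_iff.1 ((mul_eq_zero.1 e3).resolve_right
    e4)).resolve_right (by linarith [sig_gt h]))
  exact ⟨n, by simp only; linarith⟩

lemma Er_ne_zero {z : ℤ × ℤ × ℤ} (hz : z ≠ 0) : Er φ z ≠ 0 := fun e => by
  refine hz (eq_of_fst (φ := φ) (z := 0) (by simp [Er, errVec, Prod.norm_def]) (by simp [e]) ?_)
  have := congrArg Prod.fst e
  simp only [Er, errVec, Prod.fst_zero] at this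
  exact no_rat h z.1 z.2.1 (by linarith)

lemma an_count (L : Finset (ℝ × ℝ))
    (hL : ∀ v, (∀ l ∈ L, ∀ c : ℝ, v ≠ c • l) → AnalyticAt ℝ N v) {w : ℤ × ℤ × ℤ} (hw : w ≠ 0) :
    {t | ¬AnalyticAt ℝ (fun s => FF N φ s w) t}.Countable := by
  refine (L.countable_toSet.biUnion fun l _ => line_count h (Er_ne_zero h hw) l).mono
    fun t ht => ?_
  by_contra hn
  simp only [Set.mem_iUnion, Set.mem_ofPred_eq, not_exists, Finset.mem_coe] at hn
  have e : AnalyticAt ℝ (fun s => rot φ s (Er φ w)) t := by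
    unfold rot
    fun_prop
  exact ht ((hL _ hn).comp (f := fun s => rot φ s (Er φ w)) e)

theorem null_of_analytic (hN : ∀ v, N v = 0 → v = 0) (L : Finset (ℝ × ℝ))
    (hL : ∀ v, (∀ l ∈ L, ∀ c : ℝ, v ≠ c • l) → AnalyticAt ℝ N v) (z : ℤ × ℤ × ℤ) :
    volume (frontier {t | RotMin N φ t z}) = 0 := by
  rcases eq_or_ne z 0 with rfl | hz
  · simp [RotMin]
  obtain ⟨c, C, hc, hC, hb⟩ := FF_bounds N h hN
  have hA := (an_count h L hL hz).union (Set.countable_iUnion fun w : {w : ℤ × ℤ × ℤ // w ≠ 0} =>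
    (an_count h L hL w.2).union (countable_iso fun s => FF N φ s w - FF N φ s z))
  refine Set.Countable.measure_zero (hA.mono fun t ht => ?_) _
  by_contra hn
  simp only [Set.mem_union, Set.mem_iUnion, Set.mem_ofPred_eq, not_or, not_exists, not_not,
    not_and] at hn
  have e1 : ∀ w, ∀ᶠ s in 𝓝 t, w ≠ 0 → (FF N φ s w ≤ FF N φ s z ↔ FF N φ t w ≤ FF N φ t z) := by
    intro w
    rcases eq_or_ne w 0 with hw | hw
    · exact .of_forall fun _ e => (e hw).elim
    rcases lt_trichotomy (FF N φ t w) (FF N φ t z) with e | e | e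
    · exact ((FF_cont N φ w).continuousAt.eventually_lt (FF_cont N φ z).continuousAt e).mono
        fun s hs _ => iff_of_true hs.le e.le
    · have := (((hn.2 ⟨w, hw⟩).1.sub hn.1).eventually_eq_zero_or_eventually_ne_zero).resolve_right
        ((hn.2 ⟨w, hw⟩).2 (sub_eq_zero.2 e))
      exact this.mono fun s hs _ => iff_of_true (sub_eq_zero.1 hs).le e.le
    · exact ((FF_cont N φ z).continuousAt.eventually_lt (FF_cont N φ w).continuousAt e).mono
        fun s hs _ => iff_of_false hs.not_ge e.not_ge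
  have e2 : ∀ᶠ s in 𝓝 t, (RotMin N φ s z ↔ RotMin N φ t z) := by
    have hW := fin_box h (max |Pool.Agent.MP_8d3206_nt.ht φ z| (C * ‖Er φ z‖ / c))
    filter_upwards [hW.eventually_all.2 fun w _ => e1 w] with s hs
    refine and_congr_right fun _ => forall_congr' fun w => imp_congr_right fun h1 => ?_
    rcases eq_or_ne w 0 with hw | hw
    · simp [hw]
    have k : ∀ r, FF N φ r w ≤ FF N φ r z → (FF N φ s w ≤ FF N φ s z ↔ FF N φ t w ≤ FF N φ t z) :=
      fun r hr => hs w ⟨h1.trans (le_max_left _ _), le_trans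
        ((le_div_iff₀' hc).2 ((hb r w).1.trans (hr.trans (hb r z).2))) (le_max_right _ _)⟩ hw
    exact imp_congr_left ⟨fun e => (k s e).1 e, fun e => (k t e).2 e⟩
  rw [frontier_eq_closure_inter_closure, Set.mem_inter_iff, mem_closure_iff_frequently,
    mem_closure_iff_frequently] at ht
  obtain ⟨s, s1, s2⟩ := (ht.1.and_eventually e2).exists
  obtain ⟨r, r1, r2⟩ := (ht.2.and_eventually e2).exists
  exact r1 (r2.2 (s2.1 s1))

end

end Pool.Agent.MP_8d3206_nt

end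

section

namespace Pool.Agent.MP_8d3206_nt

open Real Filter Topology

/-- the invariant norm -/
noncomputable def NQ (φ : ℝ) : Seminorm ℝ (ℝ × ℝ) :=
  (normSeminorm ℝ ℂ).comp ((LinearMap.fst ℝ ℝ ℝ).smulRight 1 +
    (LinearMap.snd ℝ ℝ ℝ).smulRight ⟨-(φ ^ 2 / 2), √((3 * φ - φ ^ 2) / 4)⟩)

variable {φ : ℝ} (h : φ ^ 3 = φ + 1)
include h

lemma NQ_eq (v : ℝ × ℝ) : NQ φ v = √(Qf φ v) := by
  obtain ⟨b1, b2, b3, b4⟩ := phi_bounds h
  have e := Real.sq_sqrt (show 0 ≤ (3 * φ - φ ^ 2) / 4 by linarith)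
  simp only [NQ, Seminorm.comp_apply, coe_normSeminorm, Complex.norm_eq_sqrt_sq_add_sq, Qf]
  congr 1
  simp only [LinearMap.add_apply, LinearMap.smulRight_apply, LinearMap.fst_apply,
    LinearMap.snd_apply, Complex.add_re, Complex.add_im, Complex.smul_re, Complex.smul_im,
    Complex.one_re, Complex.one_im, smul_eq_mul]
  linear_combination v.2 ^ 2 * e + φ * v.2 ^ 2 / 4 * h

lemma Qf_pos (v : ℝ × ℝ) : 0 ≤ Qf φ v := by
  nlinarith [Qf_nonneg h v, sq_nonneg v.1, sq_nonneg v.2]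

lemma NQ_def (v : ℝ × ℝ) (hv : NQ φ v = 0) : v = 0 := by
  rw [NQ_eq h, Real.sqrt_eq_zero (Qf_pos h v)] at hv
  have := Qf_nonneg h v
  exact Prod.ext (by simp only [Prod.fst_zero]; nlinarith [sq_nonneg v.2])
    (by simp only [Prod.snd_zero]; nlinarith [sq_nonneg v.1])

lemma Qf_rot (t : ℝ) (v : ℝ × ℝ) : Qf φ (rot φ t v) = Qf φ v := by
  have h1 := sig_sq h
  have h2 := sig_gt h
  have e : ∀ v : ℝ × ℝ, Qf φ v = φ * ((φ ^ 2 - 1) * v.1 ^ 2 - φ * v.1 * v.2 + v.2 ^ 2) :=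
    fun v => by rw [Qf]; linear_combination (-(v.1 ^ 2)) * h
  have e2 : (sin t / √(3 * φ ^ 2 - 4)) ^ 2 * (3 * φ ^ 2 - 4) + cos t ^ 2 = 1 := by
    rw [div_pow, h1, div_mul_cancel₀ _ (by nlinarith), sin_sq_add_cos_sq]
  rw [e, e]
  simp only [rot, Prod.fst_add, Prod.snd_add, Prod.smul_fst, Prod.smul_snd, smul_eq_mul]
  linear_combination φ * ((φ ^ 2 - 1) * v.1 ^ 2 - φ * v.1 * v.2 + v.2 ^ 2) * e2

lemma only_one {z : ℤ × ℤ × ℤ} (h1 : |ht φ z| < φ) (h2 : Qf φ (Er φ z) ≤ φ) :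
    z = 0 ∨ z = zz 0 ∨ z = -zz 0 := by
  obtain ⟨b1, b2, b3, b4⟩ := phi_bounds h
  obtain ⟨x, y, u⟩ := z
  obtain ⟨p, rfl⟩ : ∃ p, u = p + x := ⟨u - x, by ring⟩
  have e1 : ht φ (x, y, p + x) = p + y * φ + x * φ ^ 2 := by
    simp only [ht]; push_cast; ring
  have e2 : Qf φ (Er φ (x, y, p + x)) = φ * Nf φ p y x := by
    simp only [Qf, Er, errVec, Nf]; push_cast
    linear_combination (φ * x * y - (y : ℝ) ^ 2) * h
  rw [e1] at h1
  rw [e2, mul_le_iff_le_one_right (by linarith)] at h2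
  have e3 := enum h p y x (by linarith) (by linarith)
  rw [abs_lt] at h1
  simp only [cand, List.mem_cons, Prod.mk.injEq, List.not_mem_nil, or_false, neg_eq_iff_eq_neg,
    or_assoc] at e3
  obtain ⟨h1, h3⟩ := h1
  clear e1 e2
  casesm* _ ∨ _, _ ∧ _
  all_goals
    subst_vars
    first
    | decide
    | (rw [Nf] at h2; push_cast at h1 h2 h3; linarith)

lemma minCount_NQ (t : ℝ) : minCount (NQ φ) φ t = 1 := by
  obtain ⟨b1, b2, b3, b4⟩ := phi_bounds h
  have e0 : ht φ (zz 0) = 1 := by rw [ht_zz h, pow_zero]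
  have e1 : ∀ z, NQ φ (rot φ t (errVec (φ, φ ^ 2) z)) ≤ NQ φ (rot φ t (errVec (φ, φ ^ 2) (zz 0))) →
      Qf φ (Er φ z) ≤ φ := fun z hz => by
    rw [NQ_eq h, NQ_eq h, Qf_rot h, Qf_rot h, Real.sqrt_le_sqrt_iff (Qf_pos h _)] at hz
    simpa [Er] using hz.trans_eq (Qf_zz h 0)
  rw [minCount, Set.ncard_eq_one]
  refine ⟨zz 0, Set.eq_singleton_iff_unique_mem.2 ⟨⟨e0.ge, by linarith, zz_ne h 0,
    fun w h1 h2 => only_one h (by rw [e0, abs_one] at h1; linarith) (e1 w h2)⟩, ?_⟩⟩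
  rintro z ⟨h1, h2, h3⟩
  have e2 : z ≠ -zz 0 := fun e => by rw [e, ht_neg] at h1; linarith
  rcases le_total (NQ φ (rot φ t (errVec (φ, φ ^ 2) z)))
    (NQ φ (rot φ t (errVec (φ, φ ^ 2) (zz 0)))) with e | e
  · exact ((only_one h (by rwa [abs_of_pos (by linarith)]) (e1 z e)).resolve_left h3.1).resolve_right e2
  · rcases h3.2 _ (by rw [e0, abs_one, abs_of_pos (by linarith)]; exact h1) e with e | e | e
    · exact (zz_ne h 0 e).elim
    · exact e.symm
    · exact (e2 (by rw [e, neg_neg])).elim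

theorem growth_Q : growth (NQ φ) (φ, φ ^ 2) = φ := by
  have e := (growth_gen h (N := NQ φ) (NQ_def h)).2
  rw [Tendsto.limsup_eq (a := 1) (tendsto_const_nhds.congr' ((eventually_ne_atTop 0).mono
    fun n hn => by simp [minCount_NQ h, hn])), div_one, rpow_one] at e
  exact e

end Pool.Agent.MP_8d3206_nt

end
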